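import Pool.Agent.Helper54.RT.JJ

/-!
# RT-05: an element of `P` which acts on a simple subgroup by an automorphism of order p

PROOF.  `S` is simple and nonabelian, so its center is trivial.
* `caseA`: let `α : MulAut S` be conjugation with `y`; `α ≠ 1`, `α^p = 1`, so `orderOf α = p`.  Let `P1 = zpowers y`,
  `H1 = S ⊔ P1 = S P1` (`y` normalizes `S`).  Conjugation is a homomorphism `c : H1 → MulAut S` whose image is
  `Inn(S) ⊔ zpowers α`, `c y = α`, with kernel `Z`.  `Z ⊓ S = ⊥`, so `Z` embeds in `H1 / S`, a quotient of the cyclic group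
  `P1`, so `Z` is solvable.  The normal closure `N` of `P1` in `H1` is `H1`: `N ⊓ S` is normal in `S`, and it is not trivial:
  otherwise for `s ∈ S` the element `s y s⁻¹ y⁻¹` (in `N`, and in `S` because `y` normalizes `S`) is `1` and `y` centralizes
  `S`.  So `S ≤ N` and `P1 ≤ N`.  `hW α` says that the image of `P1` in `H1 ⧸ Z ≃* Inn(S) ⊔ zpowers α` has a cover, so by
  `ra_iso` and `ra_solvable_kernel` for the group `H1`: `RealAct k (P1.subgroupOf H1)`, so `S ≤ H1 ≤ JJ k P` (`jj_le`).
* `exists_pow_caseA`: conjugation with `y` is a nontrivial automorphism of `S` of order `p^j`, `j ≥ 1`; take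
  `y' = y^(p^(j-1))`.
-/

set_option autoImplicit false
open scoped Pointwise
open Pool.Agent.Helper54.PW Pool.Agent.Helper54.SJ

namespace Pool.Agent.Helper54.RT

/-- a subgroup of `S ⊔ ⟨y⟩` containing `S` and `y` is everything -/
private theorem top_of_gen {G : Type} [Group G] {S : Subgroup G} {y : G}
    (C : Subgroup (S ⊔ Subgroup.zpowers y : Subgroup G))
    (hS : ∀ x : (S ⊔ Subgroup.zpowers y : Subgroup G), (x : G) ∈ S → x ∈ C)
    (hy : ∀ x : (S ⊔ Subgroup.zpowers y : Subgroup G), (x : G) = y → x ∈ C) : C = ⊤ := by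
  rw [eq_top_iff]
  rintro ⟨h, hh⟩ -
  have h1 : S ⊔ Subgroup.zpowers y ≤ C.map (S ⊔ Subgroup.zpowers y).subtype := by
    refine sup_le (fun s hs => ?_) (Subgroup.zpowers_le.mpr ?_)
    · exact ⟨⟨s, (le_sup_left : S ≤ S ⊔ Subgroup.zpowers y) hs⟩, hS _ hs, rfl⟩
    · exact ⟨⟨y, (le_sup_right : Subgroup.zpowers y ≤ S ⊔ Subgroup.zpowers y)
        (Subgroup.mem_zpowers y)⟩, hy _ rfl, rfl⟩
  obtain ⟨c, hc, hcc⟩ := h1 hh
  have h2 : c = ⟨h, hh⟩ := Subtype.ext hcc
  rwa [← h2]

private theorem zpowers_subgroupOf {G : Type} [Group G] (H : Subgroup G) (y : H) :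
    (Subgroup.zpowers (y : G)).subgroupOf H = Subgroup.zpowers y := by
  have h1 : Subgroup.zpowers (y : G) = (Subgroup.zpowers y).map H.subtype := by
    rw [MonoidHom.map_zpowers]
    rfl
  rw [h1]
  exact Subgroup.comap_map_eq_self_of_injective H.subtype_injective _

section
variable {p : ℕ} [Fact p.Prime] {k : Type} [Field k] [IsAlgClosed k] [CharP k p] {G : Type}
  [Group G] [Finite G]

theorem caseA {P S : Subgroup G} (hP : IsPGroup p P) (hS : IsSimpleGroup S)
    (hna : ∃ a b : S, a * b ≠ b * a) (y : G) (hy : y ∈ P)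
    (hyS : y ∈ Subgroup.normalizer (S : Set G)) (hnc : ∃ s ∈ S, y * s * y⁻¹ ≠ s)
    (hyp : ∀ s ∈ S, y ^ p * s * (y ^ p)⁻¹ = s)
    (hW : ∀ α : MulAut S, orderOf α = p → (∀ s : S, ((α s : S) : G) = y * s * y⁻¹) → AA k α) :
    S ≤ JJ k P := by
  classical
  haveI := hS
  -- the center of `S` is trivial
  have hcen : ∀ z ∈ S, (∀ s ∈ S, z * s = s * z) → z = 1 := by
    intro z hz hzs
    rcases IsSimpleGroup.eq_bot_or_eq_top_of_normal (Subgroup.center S) inferInstance with h | h
    · have h1 : (⟨z, hz⟩ : S) ∈ Subgroup.center S := by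
        rw [Subgroup.mem_center_iff]
        intro g
        exact Subtype.ext (hzs g g.2).symm
      rw [h, Subgroup.mem_bot] at h1
      exact congrArg Subtype.val h1
    · obtain ⟨a, b, hab⟩ := hna
      have h1 : a ∈ Subgroup.center S := by rw [h]; trivial
      exact absurd ((Subgroup.mem_center_iff.mp h1 b).symm) hab
  -- the group `H1`
  set H1 : Subgroup G := S ⊔ Subgroup.zpowers y with hH1
  have hSH : S ≤ H1 := le_sup_left
  have hyH : y ∈ H1 := (le_sup_right : Subgroup.zpowers y ≤ H1) (Subgroup.mem_zpowers y)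
  have hH1n : H1 ≤ Subgroup.normalizer (S : Set G) :=
    sup_le Subgroup.le_normalizer (Subgroup.zpowers_le.mpr hyS)
  set y1 : H1 := ⟨y, hyH⟩ with hy1
  set c : H1 →* MulAut S := S.normalizerMonoidHom.comp (Subgroup.inclusion hH1n) with hc
  have hcval : ∀ (x : H1) (s : S), ((c x s : S) : G) = x * s * (x : G)⁻¹ := fun x s => rfl
  set α : MulAut S := c y1 with hα
  have hαval : ∀ s : S, ((α s : S) : G) = y * s * y⁻¹ := fun s => rfl
  have hαp : α ^ p = 1 := by
    rw [hα, ← map_pow]
    ext s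
    rw [hcval, Subgroup.coe_pow]
    exact hyp s s.2
  have hα1 : α ≠ 1 := by
    intro h
    obtain ⟨s, hs, hne⟩ := hnc
    apply hne
    have h1 := hαval ⟨s, hs⟩
    rw [h] at h1
    exact h1.symm
  have hord : orderOf α = p := orderOf_eq_prime hαp hα1
  have hAA : AA k α := hW α hord hαval
  -- the range of `c`
  have hrange : (MulAut.conj : S →* MulAut S).range ⊔ Subgroup.zpowers α = c.range := by
    apply le_antisymm
    · refine sup_le ?_ (Subgroup.zpowers_le.mpr ⟨y1, rfl⟩)
      rintro _ ⟨s, rfl⟩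
      refine ⟨⟨s, hSH s.2⟩, ?_⟩
      ext t
      rw [hcval]
      rfl
    · have h1 : Subgroup.comap c ((MulAut.conj : S →* MulAut S).range ⊔ Subgroup.zpowers α) = ⊤ := by
        apply top_of_gen
        · intro x hx
          rw [Subgroup.mem_comap]
          apply (le_sup_left : (MulAut.conj : S →* MulAut S).range ≤ _)
          refine ⟨⟨x, hx⟩, ?_⟩
          ext t
          rw [hcval]
          rfl
        · intro x hx
          rw [Subgroup.mem_comap]
          apply (le_sup_right : Subgroup.zpowers α ≤ _)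
          have h2 : x = y1 := Subtype.ext hx
          rw [h2]
          exact Subgroup.mem_zpowers _
      rintro _ ⟨x, rfl⟩
      have h2 : x ∈ Subgroup.comap c ((MulAut.conj : S →* MulAut S).range ⊔ Subgroup.zpowers α) := by
        rw [h1]; trivial
      exact h2
  have hAA' : RealAct k ((Subgroup.zpowers α).subgroupOf c.range) := by
    have h := hAA
    unfold AA at h
    rw [hrange] at h
    exact h
  -- the kernel
  have hker : ∀ x ∈ c.rangeRestrict.ker, (x : G) ∈ S → x = 1 := by
    intro x hx hxS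
    rw [MonoidHom.ker_rangeRestrict, MonoidHom.mem_ker] at hx
    apply Subtype.ext
    refine hcen x hxS fun s hs => ?_
    have h1 := hcval x ⟨s, hs⟩
    rw [hx] at h1
    have h2 : s = (x : G) * s * (x : G)⁻¹ := h1
    exact (eq_mul_inv_iff_mul_eq.mp h2).symm
  haveI hSn : (S.subgroupOf H1).Normal := Subgroup.normal_subgroupOf_of_le_normalizer hH1n
  have hquot : ∀ x : H1, ∃ n : ℤ, (QuotientGroup.mk x : H1 ⧸ S.subgroupOf H1) =
      (QuotientGroup.mk y1 : H1 ⧸ S.subgroupOf H1) ^ n := by
    have h1 : Subgroup.comap (QuotientGroup.mk' (S.subgroupOf H1))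
        (Subgroup.zpowers (QuotientGroup.mk y1 : H1 ⧸ S.subgroupOf H1)) = ⊤ := by
      apply top_of_gen
      · intro x hx
        rw [Subgroup.mem_comap]
        have h2 : QuotientGroup.mk' (S.subgroupOf H1) x = 1 := by
          rw [QuotientGroup.mk'_apply, QuotientGroup.eq_one_iff, Subgroup.mem_subgroupOf]
          exact hx
        rw [h2]
        exact Subgroup.one_mem _
      · intro x hx
        rw [Subgroup.mem_comap]
        have h2 : x = y1 := Subtype.ext hx
        rw [h2]
        exact Subgroup.mem_zpowers _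
    intro x
    have h2 : x ∈ Subgroup.comap (QuotientGroup.mk' (S.subgroupOf H1))
        (Subgroup.zpowers (QuotientGroup.mk y1 : H1 ⧸ S.subgroupOf H1)) := by
      rw [h1]; trivial
    obtain ⟨n, hn⟩ := h2
    exact ⟨n, hn.symm⟩
  have hcomm : ∀ a b : H1, ((a * b * a⁻¹ * b⁻¹ : H1) : G) ∈ S := by
    intro a b
    obtain ⟨m, hm⟩ := hquot a
    obtain ⟨n, hn⟩ := hquot b
    have h1 : (QuotientGroup.mk (a * b * a⁻¹ * b⁻¹) : H1 ⧸ S.subgroupOf H1) = 1 := by
      rw [QuotientGroup.mk_mul, QuotientGroup.mk_mul, QuotientGroup.mk_mul, QuotientGroup.mk_inv,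
        QuotientGroup.mk_inv, hm, hn, (Commute.zpow_zpow_self _ m n).eq]
      group
    rw [QuotientGroup.eq_one_iff, Subgroup.mem_subgroupOf] at h1
    exact h1
  have hZsol : Group.IsSolvable c.rangeRestrict.ker := by
    apply Group.isSolvable_of_comm
    rintro ⟨a, ha⟩ ⟨b, hb⟩
    have h1 : a * b * a⁻¹ * b⁻¹ ∈ c.rangeRestrict.ker :=
      mul_mem (mul_mem (mul_mem ha hb) (inv_mem ha)) (inv_mem hb)
    have h2 := hker _ h1 (hcomm a b)
    apply Subtype.ext
    have h3 : a * b * a⁻¹ = b := mul_inv_eq_one.mp h2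
    exact mul_inv_eq_iff_eq_mul.mp h3
  -- `P1`
  have hP1 : (Subgroup.zpowers y).subgroupOf H1 = Subgroup.zpowers y1 := zpowers_subgroupOf H1 y1
  have hP1P : Subgroup.zpowers y ≤ P := Subgroup.zpowers_le.mpr hy
  have hP1p : IsPGroup p ((Subgroup.zpowers y).subgroupOf H1) :=
    (hP.to_le hP1P).comap_of_injective H1.subtype H1.subtype_injective
  have hgen : Subgroup.normalClosure (((Subgroup.zpowers y).subgroupOf H1 : Subgroup H1) : Set H1) =
      ⊤ := by
    set N := Subgroup.normalClosure (((Subgroup.zpowers y).subgroupOf H1 : Subgroup H1) : Set H1)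
      with hN
    haveI hNn : N.Normal := Subgroup.normalClosure_normal
    have hy1N : y1 ∈ N := by
      apply Subgroup.subset_normalClosure
      rw [hP1]
      exact Subgroup.mem_zpowers y1
    have hSN : Subgroup.comap (Subgroup.inclusion hSH) N = ⊤ := by
      rcases IsSimpleGroup.eq_bot_or_eq_top_of_normal (Subgroup.comap (Subgroup.inclusion hSH) N)
        inferInstance with h | h
      · exfalso
        obtain ⟨s, hs, hne⟩ := hnc
        apply hne
        have h1 : y * s * y⁻¹ ∈ S := (Subgroup.mem_normalizer_iff.mp hyS s).mp hs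
        have h2 : (⟨s⁻¹ * (y * s * y⁻¹), S.mul_mem (S.inv_mem hs) h1⟩ : S) ∈
            Subgroup.comap (Subgroup.inclusion hSH) N := by
          rw [Subgroup.mem_comap]
          have h3 : Subgroup.inclusion hSH ⟨s⁻¹ * (y * s * y⁻¹), S.mul_mem (S.inv_mem hs) h1⟩ =
              (⟨s, hSH hs⟩ : H1)⁻¹ * y1 * (⟨s, hSH hs⟩ : H1)⁻¹⁻¹ * y1⁻¹ := by
            apply Subtype.ext
            change s⁻¹ * (y * s * y⁻¹) = s⁻¹ * y * s⁻¹⁻¹ * y⁻¹
            group
          rw [h3]
          exact N.mul_mem (hNn.conj_mem y1 hy1N _) (N.inv_mem hy1N)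
        rw [h, Subgroup.mem_bot] at h2
        have h4 : s⁻¹ * (y * s * y⁻¹) = 1 := congrArg Subtype.val h2
        exact (inv_mul_eq_one.mp h4).symm
      · exact h
    apply top_of_gen
    · intro x hx
      have h1 : (⟨x, hx⟩ : S) ∈ Subgroup.comap (Subgroup.inclusion hSH) N := by
        rw [hSN]; trivial
      exact h1
    · intro x hx
      have h2 : x = y1 := Subtype.ext hx
      rw [h2]
      exact hy1N
  -- the conclusion
  have hfin : RealAct k ((Subgroup.zpowers y).subgroupOf H1) := by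
    haveI : Finite H1 := inferInstance
    apply ra_solvable_kernel (p := p) c.rangeRestrict.ker hZsol hP1p hgen
    set e := QuotientGroup.quotientKerEquivOfSurjective c.rangeRestrict
      c.rangeRestrict_surjective with he
    rw [← ra_iso e]
    have h1 : (((Subgroup.zpowers y).subgroupOf H1).map
        (QuotientGroup.mk' c.rangeRestrict.ker)).map e.toMonoidHom =
        (Subgroup.zpowers α).subgroupOf c.range := by
      have h2 : (Subgroup.zpowers α).subgroupOf c.range =
          Subgroup.zpowers (c.rangeRestrict y1) := zpowers_subgroupOf c.range (c.rangeRestrict y1)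
      rw [h2, hP1, MonoidHom.map_zpowers, MonoidHom.map_zpowers]
      rfl
    rw [h1]
    exact hAA'
  exact hSH.trans (jj_le hP1P hfin)

omit k [Field k] [IsAlgClosed k] [CharP k p] in
theorem exists_pow_caseA {P S : Subgroup G} (hP : IsPGroup p P) (y : G) (hy : y ∈ P)
    (hyS : y ∈ Subgroup.normalizer (S : Set G)) (hnc : ∃ s ∈ S, y * s * y⁻¹ ≠ s) :
    ∃ y' ∈ P, y' ∈ Subgroup.normalizer (S : Set G) ∧ (∃ s ∈ S, y' * s * y'⁻¹ ≠ s) ∧
      ∀ s ∈ S, y' ^ p * s * (y' ^ p)⁻¹ = s := by
  classical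
  have hex : ∃ j : ℕ, ∀ s ∈ S, y ^ (p ^ j) * s * (y ^ (p ^ j))⁻¹ = s := by
    obtain ⟨j, hj⟩ := hP ⟨y, hy⟩
    refine ⟨j, fun s _ => ?_⟩
    have h1 : y ^ (p ^ j) = 1 := congrArg Subtype.val hj
    rw [h1, one_mul, inv_one, mul_one]
  have hj := Nat.find_spec hex
  have hmin : ∀ m < Nat.find hex, ¬ ∀ s ∈ S, y ^ (p ^ m) * s * (y ^ (p ^ m))⁻¹ = s :=
    fun m hm => Nat.find_min hex hm
  generalize Nat.find hex = j at hj hmin
  cases j with
  | zero =>
    exfalso
    obtain ⟨s, hs, hne⟩ := hnc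
    apply hne
    have := hj s hs
    rwa [pow_zero, pow_one] at this
  | succ j =>
    refine ⟨y ^ (p ^ j), P.pow_mem hy _, Subgroup.pow_mem _ hyS _, ?_, ?_⟩
    · have h1 := hmin j (Nat.lt_succ_self j)
      push Not at h1
      exact h1
    · intro s hs
      rw [← pow_mul, ← pow_succ]
      exact hj s hs

end

end Pool.Agent.Helper54.RT
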