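import Pool.Agent.Helper54.RT.Defs
import Pool.Agent.Helper54.SR.Final

/-!
# RT-01: transport of covers

PROOF.
* `ra_map`: with the data `F, ρ, A` of `RealAct k P` take `F, f ∘ ρ, A`.
* `ra_iso`: `ra_map` for `e` and for `e.symm`.
* `ra_solvable_kernel`: let `x` be a place of `k(X)` (a valuation ring of `k(X)` containing `k`, `≠ ⊤`; e.g. the
  restriction of the `A` of `h` as in the beginning of `pcov_of_realizable` in Helper97/FP/PCovOfCover.lean).
  `realizable_of_realAct` (Helper73/PW/L1), `reduction_solvable_aux` (SR/Final) and `exists_cover_of_realizable`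
  (Helper92/PW/CoverL2): its conclusion for `G` is `RealAct k P` with `ρ = φ.symm`.
* `ra_subsingleton`: `realizable_subsingleton` (SR/Final) and `exists_cover_of_realizable`, for any place `x` of `k(X)`
  (existence of a place: Helper54/PW or Helper92/PW should have one, or localize `k[X]` at `(X)`).
* `ra_solvable`: `ra_solvable_kernel` with `N = ⊤` and `ra_subsingleton`.
* `ra_rel_map`: `H.map f ≃* H`, `ra_iso`.
* `ra_rel`: `ra_rel_map` for `K.subtype` (`Subgroup.map_subgroupOf_eq_of_le` ...), or directly `ra_iso` for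
  `H.subgroupOf K ≃* H` (`Subgroup.subgroupOfEquivOfLe`).
* `ra_rel_conj`: `ra_rel_map` for `MulAut.conj g`.
* `ra_supplement`: `H → G ⧸ N` is surjective with kernel `N.subgroupOf H`, so `H ⧸ N.subgroupOf H ≃* G ⧸ N`
  (`QuotientGroup.quotientKerEquivOfSurjective` or `QuotientGroup.lift`), and it maps the image of `P` to the
  image of `P`; `ra_iso`.
* `ra_aut`: `AA` is invariant under isomorphisms: `MulAut.congr e : MulAut S ≃* MulAut S'` maps `Inn S` to `Inn S'` and
  `α` to `α'`; `ra_rel_map`.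
-/

set_option autoImplicit false
open scoped Pointwise
open Pool.Agent.Helper54.PW

namespace Pool.Agent.Helper54.RT

section
variable {k : Type} [Field k] {G G' : Type} [Group G] [Group G']

theorem ra_map (f : G →* G') (hf : Function.Surjective f) {P : Subgroup G} (h : RealAct k P) :
    RealAct k (P.map f) := by
  obtain ⟨F, i1, i2, hfd, hgal, ρ, hρ, hun, A, hA, hAk, hAX, hst⟩ := h
  refine ⟨F, i1, i2, hfd, hgal, f.comp ρ, hf.comp hρ, ?_, A, hA, hAk, hAX, ?_⟩
  · intro A' h1 h2 h3 σ hσ
    rw [MonoidHom.comp_apply, hun A' h1 h2 h3 σ hσ, map_one]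
  · intro g
    constructor
    · rintro ⟨g', hg', rfl⟩
      obtain ⟨σ, hσ, rfl⟩ := (hst g').1 hg'
      exact ⟨σ, hσ, rfl⟩
    · rintro ⟨σ, hσ, rfl⟩
      exact ⟨ρ σ, (hst _).2 ⟨σ, hσ, rfl⟩, rfl⟩

theorem ra_iso (e : G ≃* G') {P : Subgroup G} :
    RealAct k (P.map e.toMonoidHom) ↔ RealAct k P := by
  constructor
  · intro h
    have h1 := ra_map e.symm.toMonoidHom e.symm.surjective h
    rw [Subgroup.map_map] at h1
    have h2 : e.symm.toMonoidHom.comp e.toMonoidHom = MonoidHom.id G := by
      ext x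
      exact e.symm_apply_apply x
    rw [h2, Subgroup.map_id] at h1
    exact h1
  · exact ra_map e.toMonoidHom e.surjective

theorem ra_rel_map (f : G →* G') (hf : Function.Injective f) (P H : Subgroup G) :
    RealAct k ((P.map f).subgroupOf (H.map f)) ↔ RealAct k (P.subgroupOf H) := by
  have h1 : (P.map f).subgroupOf (H.map f) =
      (P.subgroupOf H).map (H.equivMapOfInjective f hf).toMonoidHom := by
    ext ⟨y, hy⟩
    obtain ⟨x, hx, rfl⟩ := hy
    rw [Subgroup.mem_subgroupOf]
    constructor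
    · rintro ⟨x', hx', hxx⟩
      have hxx' : f x' = f x := hxx
      have : x' = x := hf hxx'
      subst this
      exact ⟨⟨x', hx⟩, Subgroup.mem_subgroupOf.2 hx', Subtype.ext rfl⟩
    · rintro ⟨x', hx', hxx⟩
      have h2 : f (x' : G) = f x := congrArg Subtype.val hxx
      refine ⟨x', Subgroup.mem_subgroupOf.1 hx', h2⟩
  rw [h1, ra_iso]

theorem ra_rel {P H K : Subgroup G} (h : H ≤ K) :
    RealAct k ((P.subgroupOf K).subgroupOf (H.subgroupOf K)) ↔ RealAct k (P.subgroupOf H) := by
  have h1 : P.subgroupOf H = ((P.subgroupOf K).subgroupOf (H.subgroupOf K)).map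
      (Subgroup.subgroupOfEquivOfLe h).toMonoidHom := by
    ext ⟨y, hy⟩
    rw [Subgroup.mem_subgroupOf]
    constructor
    · intro hyP
      refine ⟨⟨⟨y, h hy⟩, Subgroup.mem_subgroupOf.2 hy⟩, ?_, Subtype.ext rfl⟩
      exact hyP
    · rintro ⟨x, hx, hxx⟩
      have h2 : ((x : K) : G) = y := congrArg Subtype.val hxx
      have h3 : ((x : K) : G) ∈ P := hx
      rw [h2] at h3
      exact h3
  rw [h1, ra_iso]

theorem ra_rel_conj (g : G) (P H : Subgroup G) :
    RealAct k ((MulAut.conj g • P).subgroupOf (MulAut.conj g • H)) ↔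
      RealAct k (P.subgroupOf H) :=
  ra_rel_map (MulDistribMulAction.toMonoidEnd (MulAut G) G (MulAut.conj g))
    (MulAut.conj g).injective P H

theorem ra_supplement {P H N : Subgroup G} [N.Normal] (hPH : P ≤ H) (h : H ⊔ N = ⊤) :
    RealAct k ((P.subgroupOf H).map (QuotientGroup.mk' (N.subgroupOf H))) ↔
      RealAct k (P.map (QuotientGroup.mk' N)) := by
  let f : H →* G ⧸ N := (QuotientGroup.mk' N).comp H.subtype
  have hker : f.ker = N.subgroupOf H := by
    ext x
    rw [MonoidHom.mem_ker, Subgroup.mem_subgroupOf]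
    exact QuotientGroup.eq_one_iff (x : G)
  have hsurj : Function.Surjective f := by
    intro y
    obtain ⟨g, rfl⟩ := QuotientGroup.mk'_surjective N y
    have hg : g ∈ H ⊔ N := by rw [h]; trivial
    obtain ⟨a, ha, b, hb, rfl⟩ := Subgroup.mem_sup_of_normal_right.1 hg
    refine ⟨⟨a, ha⟩, ?_⟩
    show QuotientGroup.mk' N a = QuotientGroup.mk' N (a * b)
    rw [map_mul]
    have : QuotientGroup.mk' N b = 1 := (QuotientGroup.eq_one_iff b).2 hb
    rw [this, mul_one]
  let e : H ⧸ N.subgroupOf H ≃* G ⧸ N :=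
    (QuotientGroup.quotientMulEquivOfEq hker.symm).trans
      (QuotientGroup.quotientKerEquivOfSurjective f hsurj)
  have he : ∀ x : H, e (QuotientGroup.mk' (N.subgroupOf H) x) = QuotientGroup.mk' N (x : G) :=
    fun x => rfl
  have h1 : P.map (QuotientGroup.mk' N) =
      ((P.subgroupOf H).map (QuotientGroup.mk' (N.subgroupOf H))).map e.toMonoidHom := by
    ext y
    constructor
    · rintro ⟨x, hx, rfl⟩
      exact ⟨_, ⟨⟨x, hPH hx⟩, hx, rfl⟩, he ⟨x, hPH hx⟩⟩
    · rintro ⟨_, ⟨x, hx, rfl⟩, rfl⟩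
      exact ⟨(x : G), hx, (he x).symm⟩
  rw [h1, ra_iso]

theorem ra_aut (e : G ≃* G') (α : MulAut G) (α' : MulAut G') (h : ∀ g, e (α g) = α' (e g)) :
    AA k α ↔ AA k α' := by
  let c : MulAut G ≃* MulAut G' := MulAut.congr e
  have hc : ∀ (β : MulAut G) (y : G'), c β y = e (β (e.symm y)) := fun β y => rfl
  have hα : c.toMonoidHom α = α' := by
    ext y
    show c α y = α' y
    rw [hc, h, MulEquiv.apply_symm_apply]
  have hz : (Subgroup.zpowers α).map c.toMonoidHom = Subgroup.zpowers α' := by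
    rw [MonoidHom.map_zpowers, hα]
  have hr : ((MulAut.conj : G →* MulAut G).range).map c.toMonoidHom =
      (MulAut.conj : G' →* MulAut G').range := by
    have hcc : ∀ g : G, c (MulAut.conj g) = MulAut.conj (e g) := by
      intro g
      ext y
      rw [hc, MulAut.conj_apply, MulAut.conj_apply, map_mul, map_mul, map_inv,
        MulEquiv.apply_symm_apply]
    ext β
    constructor
    · rintro ⟨_, ⟨g, rfl⟩, rfl⟩
      exact ⟨e g, (hcc g).symm⟩
    · rintro ⟨g, rfl⟩
      refine ⟨_, ⟨e.symm g, rfl⟩, ?_⟩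
      show c (MulAut.conj (e.symm g)) = _
      rw [hcc, MulEquiv.apply_symm_apply]
  unfold AA
  rw [← ra_rel_map c.toMonoidHom c.injective, Subgroup.map_sup, hz, hr]

end

section
variable {p : ℕ} [Fact p.Prime] {k : Type} [Field k] [IsAlgClosed k] [CharP k p] {G : Type}
  [Group G] [Finite G]

omit [Fact p.Prime] [CharP k p] in
theorem ra_of_realizable (P : Subgroup G) (x : ValuationSubring (RatFunc k)) (hx : x ≠ ⊤)
    (hxk : ∀ c : k, algebraMap k (RatFunc k) c ∈ x)
    (h : Realizable k G (fun _ : Fin 1 => P) (fun _ => x)) : RealAct k P := by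
  obtain ⟨L, i1, i2, hfd, hgal, φ, hunr, A, hA, hAk, hAX, hst⟩ :=
    exists_cover_of_realizable P x hx hxk h
  refine ⟨L, i1, i2, hfd, hgal, φ.symm.toMonoidHom, φ.symm.surjective, ?_, A, hA, hAk, hAX, ?_⟩
  · intro A' hA' hA'k hXA' σ hσ
    rw [hunr A' hA' hA'k hXA' σ hσ, map_one]
  · intro g
    constructor
    · intro hg
      exact ⟨φ g, (hst _).2 ⟨g, hg, rfl⟩, φ.symm_apply_apply g⟩
    · rintro ⟨σ, hσ, rfl⟩
      obtain ⟨g', hg', rfl⟩ := (hst σ).1 hσ
      have : φ.symm.toMonoidHom (φ g') = g' := φ.symm_apply_apply g'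
      rw [this]
      exact hg'

omit [Fact p.Prime] [CharP k p] [IsAlgClosed k] in
theorem exists_ratFunc_place (k : Type) [Field k] : ∃ x : ValuationSubring (RatFunc k), x ≠ ⊤ ∧
    ∀ c : k, algebraMap k (RatFunc k) c ∈ x := by
  classical
  let x : ValuationSubring (RatFunc k) := (RatFunc.inftyValuation k).valuationSubring
  have hX : (RatFunc.X : RatFunc k) ∉ x := by
    intro h
    have h1 : RatFunc.inftyValuation k RatFunc.X ≤ 1 := h
    rw [RatFunc.inftyValuation.X] at h1
    have h2 : (1 : WithZero (Multiplicative ℤ)) < WithZero.exp (1 : ℤ) := by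
      rw [← WithZero.exp_zero]
      exact WithZero.exp_lt_exp.2 one_pos
    exact absurd h1 (not_le.2 h2)
  have hxk : ∀ c : k, algebraMap k (RatFunc k) c ∈ x := by
    intro c
    show RatFunc.inftyValuation k (algebraMap k (RatFunc k) c) ≤ 1
    by_cases hc : c = 0
    · rw [hc, map_zero, map_zero]; exact zero_le_one
    · have : algebraMap k (RatFunc k) c = RatFunc.C c := by rw [RatFunc.algebraMap_eq_C]
      rw [this, RatFunc.inftyValuation.C k hc]
  have hx : x ≠ ⊤ := by
    intro h
    apply hX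
    rw [h]; trivial
  exact ⟨x, hx, hxk⟩

theorem ra_solvable_kernel (N : Subgroup G) [N.Normal] (hN : Group.IsSolvable N)
    {P : Subgroup G} (hP : IsPGroup p P) (hgen : Subgroup.normalClosure (P : Set G) = ⊤)
    (h : RealAct k (P.map (QuotientGroup.mk' N))) : RealAct k P := by
  obtain ⟨x, hx, hxk⟩ := exists_ratFunc_place k
  have h1 := realizable_of_realAct _ h x hx hxk
  have h2 := Pool.Agent.Helper54.SR.reduction_solvable_aux (p := p) x hx hxk (Nat.card G) G rfl N
    hN P hP hgen h1
  exact ra_of_realizable P x hx hxk h2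

omit [Fact p.Prime] [CharP k p] [Finite G] in
theorem ra_subsingleton [Subsingleton G] (P : Subgroup G) : RealAct k P := by
  obtain ⟨x, hx, hxk⟩ := exists_ratFunc_place k
  have : Finite G := inferInstance
  exact ra_of_realizable P x hx hxk
    (Pool.Agent.Helper54.SR.realizable_subsingleton G P x hx hxk)

theorem ra_solvable (hG : Group.IsSolvable G) {P : Subgroup G} (hP : IsPGroup p P)
    (hgen : Subgroup.normalClosure (P : Set G) = ⊤) : RealAct k P := by
  have hN : Group.IsSolvable (⊤ : Subgroup G) := inferInstance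
  have : Subsingleton (G ⧸ (⊤ : Subgroup G)) := QuotientGroup.subsingleton_quotient_top
  exact ra_solvable_kernel (p := p) (⊤ : Subgroup G) hN hP hgen (ra_subsingleton _)

end

end Pool.Agent.Helper54.RT
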