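import Pool.Agent.Helper54.RT.Bridge
import Pool.Agent.Helper54.SJ.Join

/-!
# RT-02: the join of all covers

PROOF.
* `jj_le`, `le_jj`: clear.
* `ra_jj`: `realAct_join` in the group `K = JJ k P` with `P.subgroupOf K` and the set of all `H.subgroupOf K` for the `H`
  in the definition of `JJ` (`H ≤ K`): `ra_rel`.  The set is nonempty: it contains `⊥` (with `P1 = ⊥`,
  `ra_subsingleton`).  The join of the `H.subgroupOf K` and `P.subgroupOf K` is `⊤`: map with the injective `K.subtype`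
  (`Subgroup.map_injective`, `Subgroup.map_sup`, `Subgroup.map_sSup`/`map_iSup`, `Subgroup.subgroupOf_map_subtype`).
* `jj_top`: `ra_jj` with `JJ k P = ⊤` (`Subgroup.topEquiv`, `ra_iso`; or `ra_rel_map`).
* `jj_conj`: `MulAut.conj g` maps `P` to `MulAut.conj g • P` and the `H` in the definition for `P` to those for
  `MulAut.conj g • P` (`ra_rel_conj`).
* `jj_normalizer`: `g` in the normalizer of `P` iff `MulAut.conj g • P = P`; `jj_conj`.
* `jj_crit`: by `jj_normalizer`, `JJ k P` is normalized by `JJ k P ⊔ P.normalizer = ⊤`, so it is normal, contains `P`, so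
  contains the normal closure of `P`, so it is `⊤`; `jj_top`.
* `jj_solvable`: `ra_solvable` for `H` and `P1.subgroupOf H`, `jj_le`.
-/

set_option autoImplicit false
open scoped Pointwise
open Pool.Agent.Helper54.PW Pool.Agent.Helper54.SJ

namespace Pool.Agent.Helper54.RT

section
variable {k : Type} [Field k] {G : Type} [Group G]

theorem jj_le {P1 P H : Subgroup G} (h1 : P1 ≤ P) (h : RealAct k (P1.subgroupOf H)) :
    H ≤ JJ k P :=
  le_sup_of_le_right (le_sSup ⟨P1, h1, h⟩)

theorem le_jj (P : Subgroup G) : P ≤ JJ k P := le_sup_left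

private theorem jj_conj_le (g : G) (P : Subgroup G) :
    (MulAut.conj g • JJ k P : Subgroup G) ≤ JJ k (MulAut.conj g • P) := by
  rw [Subgroup.pointwise_smul_subset_iff]
  unfold JJ
  refine sup_le ?_ (sSup_le ?_)
  · rw [← Subgroup.pointwise_smul_subset_iff]
    exact le_jj (k := k) (MulAut.conj g • P)
  · rintro H ⟨P1, h1, h⟩
    rw [← Subgroup.pointwise_smul_subset_iff]
    have h2 : (MulAut.conj g • P1 : Subgroup G) ≤ MulAut.conj g • P :=
      Subgroup.pointwise_smul_le_pointwise_smul_iff.mpr h1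
    exact jj_le h2 ((ra_rel_conj g P1 H).mpr h)

theorem jj_conj (g : G) (P : Subgroup G) :
    (MulAut.conj g • JJ k P : Subgroup G) = JJ k (MulAut.conj g • P) := by
  refine le_antisymm (jj_conj_le g P) ?_
  have h := jj_conj_le (k := k) g⁻¹ (MulAut.conj g • P)
  rw [smul_smul, ← map_mul, inv_mul_cancel, map_one, one_smul] at h
  rw [map_inv, Subgroup.pointwise_smul_subset_iff, inv_inv] at h
  exact h

private theorem jj_smul_eq_iff {g : G} {H : Subgroup G} :
    (MulAut.conj g • H : Subgroup G) = H ↔ g ∈ Subgroup.normalizer (H : Set G) := by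
  rw [Subgroup.mem_normalizer_iff]
  constructor
  · intro e h
    have h1 : (MulAut.conj g • h : G) ∈ (MulAut.conj g • H : Subgroup G) ↔ h ∈ H :=
      Subgroup.smul_mem_pointwise_smul_iff
    rw [e, MulAut.smul_def, MulAut.conj_apply] at h1
    exact h1.symm
  · intro hg
    ext x
    rw [Subgroup.mem_pointwise_smul_iff_inv_smul_mem, ← map_inv, MulAut.smul_def,
      MulAut.conj_apply, inv_inv]
    have h1 : g⁻¹ * x * g ∈ H ↔ g * (g⁻¹ * x * g) * g⁻¹ ∈ H := hg (g⁻¹ * x * g)
    have h2 : g * (g⁻¹ * x * g) * g⁻¹ = x := by group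
    rw [h2] at h1
    exact h1

theorem jj_normalizer (P : Subgroup G) :
    Subgroup.normalizer (P : Set G) ≤ Subgroup.normalizer (JJ k P : Set G) := by
  intro g hg
  rw [← jj_smul_eq_iff] at hg ⊢
  rw [jj_conj, hg]

end

section
variable {p : ℕ} [Fact p.Prime] {k : Type} [Field k] [IsAlgClosed k] [CharP k p] {G : Type}
  [Group G] [Finite G]

theorem ra_jj {P : Subgroup G} (hP : IsPGroup p P) :
    RealAct k (P.subgroupOf (JJ k P)) := by
  have hP' : IsPGroup p (P.subgroupOf (JJ k P)) :=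
    hP.comap_of_injective (JJ k P).subtype (JJ k P).subtype_injective
  refine realAct_join hP' {H' | ∃ H : Subgroup G, (∃ P1 ≤ P, RealAct k (P1.subgroupOf H)) ∧
    H' = H.subgroupOf (JJ k P)} ?_ ?_ ?_
  · exact ⟨_, ⊥, ⟨⊥, bot_le, ra_subsingleton _⟩, rfl⟩
  · rintro _ ⟨H, ⟨P1, h1, h⟩, rfl⟩
    refine ⟨P1.subgroupOf (JJ k P), ?_, (ra_rel (jj_le h1 h)).mpr h⟩
    exact Subgroup.comap_mono h1
  · rw [eq_top_iff]
    rintro ⟨x, hx⟩ _
    have key : JJ k P ≤ (P.subgroupOf (JJ k P) ⊔ sSup {H' | ∃ H : Subgroup G,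
        (∃ P1 ≤ P, RealAct k (P1.subgroupOf H)) ∧ H' = H.subgroupOf (JJ k P)}).map
          (JJ k P).subtype := by
      conv_lhs => unfold JJ
      refine sup_le ?_ (sSup_le ?_)
      · intro y hy
        exact ⟨⟨y, le_jj P hy⟩, Subgroup.mem_sup_left (Subgroup.mem_subgroupOf.mpr hy), rfl⟩
      · rintro H ⟨P1, h1, h⟩ y hy
        refine ⟨⟨y, jj_le h1 h hy⟩, Subgroup.mem_sup_right ?_, rfl⟩
        have h3 : H.subgroupOf (JJ k P) ∈ {H' | ∃ H : Subgroup G,
            (∃ P1 ≤ P, RealAct k (P1.subgroupOf H)) ∧ H' = H.subgroupOf (JJ k P)} :=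
          ⟨H, ⟨P1, h1, h⟩, rfl⟩
        exact le_sSup h3 (Subgroup.mem_subgroupOf.mpr hy)
    obtain ⟨y, hy, e⟩ := key hx
    have e' : y = ⟨x, hx⟩ := Subtype.ext e
    rw [← e']
    exact hy

theorem jj_top {P : Subgroup G} (hP : IsPGroup p P) (h : JJ k P = ⊤) : RealAct k P := by
  have h1 := ra_jj (k := k) hP
  rw [h] at h1
  rw [← ra_iso (Subgroup.topEquiv : (⊤ : Subgroup G) ≃* G)] at h1
  have e : (P.subgroupOf ⊤).map (Subgroup.topEquiv : (⊤ : Subgroup G) ≃* G).toMonoidHom = P := by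
    ext x
    constructor
    · rintro ⟨y, hy, rfl⟩
      exact hy
    · intro hx
      exact ⟨⟨x, Subgroup.mem_top x⟩, hx, rfl⟩
  rw [e] at h1
  exact h1

theorem jj_crit {P : Subgroup G} (hP : IsPGroup p P)
    (hgen : Subgroup.normalClosure (P : Set G) = ⊤)
    (h : JJ k P ⊔ Subgroup.normalizer (P : Set G) = ⊤) : RealAct k P := by
  apply jj_top hP
  have h1 : Subgroup.normalizer (JJ k P : Set G) = ⊤ := by
    rw [eq_top_iff, ← h]
    exact sup_le Subgroup.le_normalizer (jj_normalizer P)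
  have : (JJ k P).Normal := Subgroup.normalizer_eq_top_iff.mp h1
  rw [eq_top_iff, ← hgen]
  exact Subgroup.normalClosure_le_normal (le_jj P)

theorem jj_solvable {P1 P H : Subgroup G} (hP : IsPGroup p P) (h1 : P1 ≤ P)
    (hs : Group.IsSolvable H)
    (hg : Subgroup.normalClosure ((P1.subgroupOf H : Subgroup H) : Set H) = ⊤) :
    H ≤ JJ k P := by
  have hP' : IsPGroup p (P1.subgroupOf H) :=
    (hP.to_le h1).comap_of_injective H.subtype H.subtype_injective
  exact jj_le h1 (ra_solvable hs hP' hg)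

end

end Pool.Agent.Helper54.RT
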