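import Mathlib

/-!
# RT-03: subgroups which are the normal closure of `P`

PROOF.  For a subgroup `H` with `P ≤ H` let `c(H)` be the image in `G` of `normalClosure (P.subgroupOf H)`; so
`P ≤ c(H) ≤ H`, and `c(H) = H` iff the normal closure is `⊤`.
* `exists_core`: choose `H` of minimal order among all `H` with `P ≤ H ≤ A` and `H ⊔ N = ⊤`.  It is enough to see
  `c(H) ⊔ N = ⊤` (then `c(H) = H`).  `c(H)` is normalized by `H`, so `c(H) ⊔ N` is normalized by `H` and by `N`
  (`N` normal: `c(H) ⊔ N = c(H) N`, and `N ≤ c(H) ⊔ N`), so by `H ⊔ N = ⊤`: it is normal; it contains `P`, whose normal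
  closure is `⊤`.
* `exists_core_sylow`: choose `H` of minimal order among all `H` with `P ≤ H ≤ A` and `A ≤ H ⊔ N_G(P)`.  It is enough
  to see `H ≤ c(H) ⊔ N_G(P)`.  `P` is a Sylow subgroup of `H` (`p ∤ P.relIndex H`, which divides `P.relIndex A`), so also
  of `c(H)`, which is normal in `H`: Frattini's argument: for `h ∈ H`, `h P h⁻¹ ≤ c(H)` is a Sylow subgroup of `c(H)`, so
  it is `c P c⁻¹`, `c ∈ c(H)`, and `c⁻¹ h ∈ N_G(P)` (`Sylow.normalizer_sup_eq_top` in the group `H`, or directly).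
* `gen_mono`: the normal closure of `P` in `H` is `H`.  If `P ≤ P' ≤ H` the same holds for `P'`.
-/

set_option autoImplicit false
open scoped Pointwise

namespace Pool.Agent.Helper54.RT

variable {G : Type} [Group G] [Finite G]

/-- the normal closure of `P` in `H`, as a subgroup of `G` -/
private def cc (P H : Subgroup G) : Subgroup G :=
  (Subgroup.normalClosure ((P.subgroupOf H : Subgroup H) : Set H)).map H.subtype

omit [Finite G] in
private theorem cc_le (P H : Subgroup G) : cc P H ≤ H := Subgroup.map_subtype_le _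

omit [Finite G] in
private theorem le_cc {P H : Subgroup G} (h : P ≤ H) : P ≤ cc P H := by
  intro x hx
  refine ⟨⟨x, h hx⟩, Subgroup.subset_normalClosure ?_, rfl⟩
  exact hx

omit [Finite G] in
private theorem cc_conj {P H : Subgroup G} {h c : G} (hh : h ∈ H) (hc : c ∈ cc P H) :
    h * c * h⁻¹ ∈ cc P H := by
  obtain ⟨c, hc, rfl⟩ := hc
  exact ⟨⟨h, hh⟩ * c * ⟨h, hh⟩⁻¹, Subgroup.normalClosure_normal.conj_mem c hc ⟨h, hh⟩, rfl⟩

omit [Finite G] in
private theorem top_of_cc {P H : Subgroup G} (h : cc P H = H) :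
    Subgroup.normalClosure ((P.subgroupOf H : Subgroup H) : Set H) = ⊤ := by
  rw [Subgroup.eq_top_iff']
  intro x
  have h1 : (x : G) ∈ cc P H := by
    rw [h]
    exact x.2
  obtain ⟨y, hy, hxy⟩ := h1
  have h2 : y = x := Subtype.ext hxy
  rw [← h2]
  exact hy

theorem exists_core {P A N : Subgroup G} [N.Normal] (hPA : P ≤ A)
    (hgen : Subgroup.normalClosure (P : Set G) = ⊤) (hA : A ⊔ N = ⊤) :
    ∃ H : Subgroup G, P ≤ H ∧ H ≤ A ∧ H ⊔ N = ⊤ ∧
      Subgroup.normalClosure ((P.subgroupOf H : Subgroup H) : Set H) = ⊤ := by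
  obtain ⟨H, hH, hmin⟩ := Set.Finite.exists_minimal
    (s := {H : Subgroup G | P ≤ H ∧ H ≤ A ∧ H ⊔ N = ⊤}) (Set.toFinite _) ⟨A, hPA, le_rfl, hA⟩
  obtain ⟨hPH, hHA, hHN⟩ := hH
  refine ⟨H, hPH, hHA, hHN, top_of_cc ?_⟩
  have hN : cc P H ⊔ N = ⊤ := by
    have key : ∀ h ∈ H, ∀ x ∈ cc P H ⊔ N, h * x * h⁻¹ ∈ cc P H ⊔ N := by
      intro h hh x hx
      obtain ⟨c, hc, n, hn, rfl⟩ := Subgroup.mem_sup_of_normal_right.1 hx
      have h1 : h * (c * n) * h⁻¹ = (h * c * h⁻¹) * (h * n * h⁻¹) := by group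
      rw [h1]
      exact Subgroup.mul_mem _ ((le_sup_left : cc P H ≤ cc P H ⊔ N) (cc_conj hh hc))
        ((le_sup_right : N ≤ cc P H ⊔ N) (Subgroup.Normal.conj_mem inferInstance n hn h))
    have h1 : H ≤ Subgroup.normalizer ((cc P H ⊔ N : Subgroup G) : Set G) := by
      intro h hh
      refine (Subgroup.mem_normalizer_iff (H := cc P H ⊔ N)).2 fun x => ⟨key h hh x, fun hx => ?_⟩
      have h2 := key h⁻¹ (H.inv_mem hh) _ hx
      have h3 : h⁻¹ * (h * x * h⁻¹) * h⁻¹⁻¹ = x := by group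
      rwa [h3] at h2
    have h2 : N ≤ Subgroup.normalizer ((cc P H ⊔ N : Subgroup G) : Set G) :=
      le_trans le_sup_right Subgroup.le_normalizer
    have h3 : Subgroup.normalizer ((cc P H ⊔ N : Subgroup G) : Set G) = ⊤ := by
      rw [eq_top_iff, ← hHN]
      exact sup_le h1 h2
    have h4 : (cc P H ⊔ N).Normal := Subgroup.normalizer_eq_top_iff.1 h3
    rw [eq_top_iff, ← hgen]
    exact Subgroup.normalClosure_le_normal
      (le_trans (SetLike.coe_subset_coe.2 (le_cc hPH)) (SetLike.coe_subset_coe.2 le_sup_left))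
  exact le_antisymm (cc_le P H)
    (hmin (⟨le_cc hPH, (cc_le P H).trans hHA, hN⟩ : P ≤ cc P H ∧ cc P H ≤ A ∧ cc P H ⊔ N = ⊤)
      (cc_le P H))

theorem exists_core_sylow {p : ℕ} [Fact p.Prime] {P A : Subgroup G} (hPA : P ≤ A)
    (hP : IsPGroup p P) (hd : ¬ p ∣ P.relIndex A) :
    ∃ H : Subgroup G, P ≤ H ∧ H ≤ A ∧ A ≤ H ⊔ Subgroup.normalizer (P : Set G) ∧
      Subgroup.normalClosure ((P.subgroupOf H : Subgroup H) : Set H) = ⊤ := by
  obtain ⟨H, hH, hmin⟩ := Set.Finite.exists_minimal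
    (s := {H : Subgroup G | P ≤ H ∧ H ≤ A ∧ A ≤ H ⊔ Subgroup.normalizer (P : Set G)})
    (Set.toFinite _) ⟨A, hPA, le_rfl, le_sup_left⟩
  obtain ⟨hPH, hHA, hHN⟩ := hH
  refine ⟨H, hPH, hHA, hHN, top_of_cc ?_⟩
  have hN : H ≤ cc P H ⊔ Subgroup.normalizer (P : Set G) := by
    obtain ⟨M, hM⟩ : ∃ M, M = Subgroup.normalClosure ((P.subgroupOf H : Subgroup H) : Set H) :=
      ⟨_, rfl⟩
    have hMn : M.Normal := hM ▸ Subgroup.normalClosure_normal
    have hPM : P.subgroupOf H ≤ M := by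
      rw [hM]
      exact Subgroup.subset_normalClosure
    have hp1 : IsPGroup p (P.subgroupOf H) :=
      hP.comap_of_injective H.subtype Subtype.val_injective
    have hp2 : IsPGroup p ((P.subgroupOf H).subgroupOf M) :=
      hp1.comap_of_injective M.subtype Subtype.val_injective
    have hi : ¬ p ∣ ((P.subgroupOf H).subgroupOf M).index := by
      intro h1
      apply hd
      have h2 : ((P.subgroupOf H).subgroupOf M).index ∣ (P.subgroupOf H).index :=
        Subgroup.relIndex_dvd_index_of_le hPM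
      have h3 : P.relIndex H ∣ P.relIndex A :=
        ⟨_, (Subgroup.relIndex_mul_relIndex P H A hPH hHA).symm⟩
      exact (h1.trans h2).trans h3
    have hfr := Sylow.normalizer_sup_eq_top (hp2.toSylow hi)
    have hmap : (hp2.toSylow hi : Subgroup M).map M.subtype = P.subgroupOf H := by
      have h1 : (hp2.toSylow hi : Subgroup M) = (P.subgroupOf H).subgroupOf M := rfl
      rw [h1, Subgroup.subgroupOf_map_subtype]
      exact inf_eq_left.2 hPM
    rw [hmap] at hfr
    intro h hh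
    have h1 : (⟨h, hh⟩ : H) ∈
        Subgroup.normalizer ((P.subgroupOf H : Subgroup H) : Set H) ⊔ M := by
      rw [hfr]
      exact Subgroup.mem_top _
    obtain ⟨n, hn, c, hc, hnc⟩ := Subgroup.mem_sup_of_normal_right.1 h1
    have h2 : h = (n : G) * (c : G) := (congrArg Subtype.val hnc).symm
    have h3 : (n : G) ∈ Subgroup.normalizer (P : Set G) := by
      refine (Subgroup.mem_normalizer_iff (H := P)).2 fun x => ?_
      have hn' := Subgroup.mem_normalizer_iff.1 hn
      constructor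
      · intro hx
        exact (hn' ⟨x, hPH hx⟩).1 hx
      · intro hx
        have hxH : x ∈ H := by
          have h4 := H.mul_mem (H.mul_mem (H.inv_mem n.2) (hPH hx)) n.2
          have h5 : (n : G)⁻¹ * ((n : G) * x * (n : G)⁻¹) * (n : G) = x := by group
          rwa [h5] at h4
        exact (hn' ⟨x, hxH⟩).2 hx
    rw [h2]
    refine Subgroup.mul_mem _ ((le_sup_right :
      Subgroup.normalizer (P : Set G) ≤ cc P H ⊔ Subgroup.normalizer (P : Set G)) h3)
      ((le_sup_left : cc P H ≤ cc P H ⊔ Subgroup.normalizer (P : Set G)) ?_)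
    exact ⟨c, hM ▸ hc, rfl⟩
  refine le_antisymm (cc_le P H) (hmin (⟨le_cc hPH, (cc_le P H).trans hHA, ?_⟩ :
    P ≤ cc P H ∧ cc P H ≤ A ∧ A ≤ cc P H ⊔ Subgroup.normalizer (P : Set G)) (cc_le P H))
  exact hHN.trans (sup_le hN le_sup_right)

omit [Finite G] in
theorem gen_mono {P P' H : Subgroup G} (hPP : P ≤ P')
    (h : Subgroup.normalClosure ((P.subgroupOf H : Subgroup H) : Set H) = ⊤) :
    Subgroup.normalClosure ((P'.subgroupOf H : Subgroup H) : Set H) = ⊤ := by
  rw [eq_top_iff, ← h]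
  apply Subgroup.normalClosure_mono
  intro x hx
  exact hPP hx

end Pool.Agent.Helper54.RT
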