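import Pool.Agent.Helper54.RT.JJ
import Pool.Agent.Helper54.RT.Core

/-!
# RT-04: kernels of order prime to p

PROOF.
* `jj_sylow_solvable`: `exists_core_sylow` gives `H` with `P ≤ H ≤ A`, `A ≤ H ⊔ N_G(P)`; `H` is solvable, so `H ≤ JJ k P` by
  `jj_solvable` (with `P1 = P`).
* `exists_inv_sylow`: `P` acts by conjugation on the Sylow `q`-subgroups of `R` (as subgroups of `G` contained in `R`); their
  number divides the order of `R` (`Sylow.card_eq_index_normalizer`), so it is prime to `p`, so the `p`-group `P` has a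
  fixed point (`IsPGroup.card_modEq_card_fixedPoints`).
* `ra_pprime_kernel`: strong induction on the order of `R` (for all `G`).  If `R = ⊥` then the claim is `ra_iso` for
  `QuotientGroup.quotientBot`.  Otherwise there are two cases.
  Case 1: for some prime `q` dividing `|R|` and some Sylow `q`-subgroup of `R`, it is normal in `R`.  Let `Q` be its image in
  `G`; it is characteristic in `R`, so normal in `G`, and it is solvable (`q`-group) and `≠ ⊥`.  By induction for
  `G ⧸ Q`, `R.map (mk' Q)` (order `|R|/|Q|`), `P.map (mk' Q)`: its quotient is `G ⧸ R` (third isomorphism theorem, as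
  in `reduction_solvable_aux` of SR/Final.lean), so `RealAct k (P.map (mk' Q))`; conclude by `ra_solvable_kernel`.
  Case 2: otherwise.  For every prime `q` dividing `|R|` let `Q` be a `P`-invariant Sylow `q`-subgroup of `R`
  (`exists_inv_sylow`), `A = Q ⊔ P = Q P`: it is solvable (`Q` normal in it, `q`-group by `p`-group) and `P.relIndex A` is a
  divisor of `|Q|`, so prime to `p`.  So `Q ≤ JJ k P ⊔ N_G(P)` (`jj_sylow_solvable`).  So `R ≤ JJ k P ⊔ N_G(P)`: the order of
  `R ⊓ (JJ k P ⊔ N_G(P))` is divisible by `|Q|` for all `q`, so by `|R|`.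
  Further choose one `q` (`R ≠ ⊥`) and `Q`.  `A = N_G(Q)` satisfies `A ⊔ R = ⊤` (Frattini,
  `Sylow.normalizer_sup_eq_top`) and `P ≤ A`.  `exists_core` gives `H ≤ A` with `P ≤ H`, `H ⊔ R = ⊤`, generated by the
  conjugates of `P` in `H`.  `R ⊓ H` is a normal subgroup of `H` of order prime to `p`, and smaller than `R` (otherwise
  `R ≤ N_G(Q)`, `Q` normal in `R`).  By `ra_supplement` and induction for `H`: `RealAct k (P.subgroupOf H)`, so
  `H ≤ JJ k P` (`jj_le`).  So `⊤ = H ⊔ R ≤ JJ k P ⊔ N_G(P)` and `jj_crit` applies.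
-/

set_option autoImplicit false
open scoped Pointwise
open Pool.Agent.Helper54.PW Pool.Agent.Helper54.SJ

namespace Pool.Agent.Helper54.RT

section groups

variable {G : Type} [Group G] [Finite G]

/-- solvable by solvable, with a normal subgroup -/
private theorem solvable_sup_normal_pp {G : Type} [Group G] {Q P : Subgroup G} [Q.Normal]
    (hQ : Group.IsSolvable Q) (hP : Group.IsSolvable P) :
    Group.IsSolvable (Q ⊔ P : Subgroup G) := by
  have h1 : (Q ⊔ P).map (QuotientGroup.mk' Q) = P.map (QuotientGroup.mk' Q) := by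
    rw [Subgroup.map_sup, QuotientGroup.map_mk'_self, bot_sup_eq]
  have h2 : Group.IsSolvable ((Q ⊔ P).map (QuotientGroup.mk' Q) : Subgroup (G ⧸ Q)) := by
    rw [h1]
    exact Group.isSolvable_of_surjective
      (f := (QuotientGroup.mk' Q).subgroupMap P) ((QuotientGroup.mk' Q).subgroupMap_surjective P)
  refine Group.isSolvable_of_ker_le_range (Subgroup.inclusion (le_sup_left : Q ≤ Q ⊔ P))
    ((QuotientGroup.mk' Q).subgroupMap (Q ⊔ P)) ?_
  intro x hx
  rw [MonoidHom.mem_ker] at hx
  have h3 : QuotientGroup.mk' Q (x : G) = 1 := congrArg Subtype.val hx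
  have h4 : (x : G) ∈ Q := (QuotientGroup.eq_one_iff (x : G)).1 h3
  exact ⟨⟨x, h4⟩, rfl⟩

/-- solvable by solvable -/
private theorem solvable_sup_pp {G : Type} [Group G] {Q P : Subgroup G}
    (hPQ : P ≤ Subgroup.normalizer (Q : Set G))
    (hQ : Group.IsSolvable Q) (hP : Group.IsSolvable P) :
    Group.IsSolvable (Q ⊔ P : Subgroup G) := by
  have hQM : Q ≤ Subgroup.normalizer (Q : Set G) := Subgroup.le_normalizer
  have hn : (Q.subgroupOf (Subgroup.normalizer (Q : Set G))).Normal := inferInstance
  have h1 : Group.IsSolvable (Q.subgroupOf (Subgroup.normalizer (Q : Set G))) :=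
    Group.isSolvable_of_surjective (f := (Subgroup.subgroupOfEquivOfLe hQM).symm.toMonoidHom)
      (Subgroup.subgroupOfEquivOfLe hQM).symm.surjective
  have h2 : Group.IsSolvable (P.subgroupOf (Subgroup.normalizer (Q : Set G))) :=
    Group.isSolvable_of_surjective (f := (Subgroup.subgroupOfEquivOfLe hPQ).symm.toMonoidHom)
      (Subgroup.subgroupOfEquivOfLe hPQ).symm.surjective
  have h3 := solvable_sup_normal_pp h1 h2
  have h4 : (Q.subgroupOf (Subgroup.normalizer (Q : Set G)) ⊔
      P.subgroupOf (Subgroup.normalizer (Q : Set G))).map (Subgroup.subtype _) = Q ⊔ P := by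
    rw [Subgroup.map_sup, Subgroup.subgroupOf_map_subtype, Subgroup.subgroupOf_map_subtype,
      inf_eq_left.2 hQM, inf_eq_left.2 hPQ]
  rw [← h4]
  exact Group.isSolvable_of_surjective
    (f := (Subgroup.subtype (Subgroup.normalizer (Q : Set G))).subgroupMap _)
    (MonoidHom.subgroupMap_surjective _ _)

private theorem relIndex_dvd_pp {P A R : Subgroup G} [R.Normal] (hPA : P ≤ A) (hA : A ≤ R ⊔ P) :
    P.relIndex A ∣ Nat.card R := by
  have h1 : P.relIndex A * A.relIndex (R ⊔ P) = P.relIndex (R ⊔ P) :=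
    Subgroup.relIndex_mul_relIndex P A _ hPA hA
  have h2 : Nat.card P * P.relIndex (R ⊔ P) = Nat.card (R ⊔ P : Subgroup G) := by
    rw [← Subgroup.relIndex_bot_left, ← Subgroup.relIndex_bot_left]
    exact Subgroup.relIndex_mul_relIndex ⊥ P _ bot_le le_sup_right
  have h3 : Nat.card R * R.relIndex P = Nat.card (R ⊔ P : Subgroup G) := by
    rw [← Subgroup.relIndex_sup_left, ← Subgroup.relIndex_bot_left, ← Subgroup.relIndex_bot_left]
    exact Subgroup.relIndex_mul_relIndex ⊥ R _ bot_le le_sup_left
  have h4 : Nat.card (R ⊓ P : Subgroup G) * R.relIndex P = Nat.card P := by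
    rw [← Subgroup.inf_relIndex_right, ← Subgroup.relIndex_bot_left, ← Subgroup.relIndex_bot_left]
    exact Subgroup.relIndex_mul_relIndex ⊥ _ _ bot_le inf_le_right
  have h5 : 0 < R.relIndex P := by
    have h7 : 0 < Nat.card P := Nat.card_pos
    rw [← h4] at h7
    exact Nat.pos_of_mul_pos_left h7
  have h6 : Nat.card (R ⊓ P : Subgroup G) * P.relIndex (R ⊔ P) = Nat.card R := by
    apply Nat.eq_of_mul_eq_mul_right h5
    rw [h3, ← h2, ← h4]
    ring
  rw [← h6, ← h1]
  exact ⟨Nat.card (R ⊓ P : Subgroup G) * A.relIndex (R ⊔ P), by ring⟩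

private theorem sylow_all_pp {R W : Subgroup G}
    (h : ∀ q : ℕ, q.Prime → ∀ _ : Fact q.Prime, ∃ Q : Sylow q R, (Q : Subgroup R).map R.subtype ≤ W) :
    R ≤ W := by
  have h1 : Nat.card R ∣ Nat.card (R ⊓ W : Subgroup G) := by
    rw [Nat.dvd_iff_prime_pow_dvd_dvd]
    intro q n hq hn
    have hqf : Fact q.Prime := ⟨hq⟩
    obtain ⟨Q, hQ⟩ := h q hq hqf
    have h2 := Q.pow_dvd_card_of_pow_dvd_card hn
    have h3 : Nat.card ((Q : Subgroup R).map R.subtype : Subgroup G) = Nat.card Q :=
      Nat.card_congr ((Q : Subgroup R).equivMapOfInjective R.subtype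
        R.subtype_injective).toEquiv.symm
    rw [← h3] at h2
    exact h2.trans (Subgroup.card_dvd_of_le (le_inf (Subgroup.map_subtype_le _) hQ))
  have h4 : Nat.card (R ⊓ W : Subgroup G) = Nat.card R :=
    Nat.dvd_antisymm (Subgroup.card_dvd_of_le inf_le_left) h1
  have h5 : R ⊓ W = R := Subgroup.eq_of_le_of_card_ge inf_le_left h4.ge
  exact inf_eq_left.1 h5

end groups

section
variable {p : ℕ} [Fact p.Prime] {k : Type} [Field k] [IsAlgClosed k] [CharP k p] {G : Type}
  [Group G] [Finite G]

theorem jj_sylow_solvable {P A : Subgroup G} (hP : IsPGroup p P) (hPA : P ≤ A)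
    (hs : Group.IsSolvable A) (hd : ¬ p ∣ P.relIndex A) :
    A ≤ JJ k P ⊔ Subgroup.normalizer (P : Set G) := by
  obtain ⟨H, hPH, hHA, hAH, hgen⟩ := exists_core_sylow hPA hP hd
  have hsH : Group.IsSolvable H :=
    Group.isSolvable_of_isSolvable_injective (f := Subgroup.inclusion hHA) (Subgroup.inclusion_injective hHA)
  have h1 : H ≤ JJ k P := jj_solvable hP le_rfl hsH hgen
  exact hAH.trans (sup_le_sup_right h1 _)

omit k [Field k] [IsAlgClosed k] [CharP k p] in
theorem exists_inv_sylow {P R : Subgroup G} [R.Normal] (hP : IsPGroup p P)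
    (hR : ¬ p ∣ Nat.card R) (q : ℕ) [Fact q.Prime] :
    ∃ Q : Sylow q R, P ≤ Subgroup.normalizer (((Q : Subgroup R).map R.subtype : Subgroup G) : Set G) := by
  let _ : MulAction P (Sylow q R) :=
    MulAction.compHom (Sylow q R) ((MulAut.conjNormal (H := R)).comp P.subtype)
  have hdvd : ¬ p ∣ Nat.card (Sylow q R) := by
    intro h
    obtain ⟨Q⟩ : Nonempty (Sylow q R) := inferInstance
    exact hR (h.trans (Q.card_dvd_index.trans (Subgroup.index_dvd_card _)))
  obtain ⟨Q, hQ⟩ := hP.nonempty_fixed_point_of_prime_not_dvd_card (Sylow q R) hdvd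
  refine ⟨Q, fun g hg => ?_⟩
  have h1 : (MulAut.conjNormal (H := R)) g • Q = Q := hQ ⟨g, hg⟩
  have h2 : (MulAut.conjNormal (H := R)) g • (Q : Subgroup R) = (Q : Subgroup R) := by
    have h3 := congrArg (fun S : Sylow q R => (S : Subgroup R)) h1
    exact h3
  rw [Subgroup.mem_normalizer_iff]
  intro x
  constructor
  · intro hx
    obtain ⟨y, hy, rfl⟩ := hx
    refine ⟨(MulAut.conjNormal (H := R)) g y, ?_, ?_⟩
    · rw [← h2]
      exact Subgroup.smul_mem_pointwise_smul _ _ _ hy
    · simp
  · intro hx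
    obtain ⟨y, hy, hyx⟩ := hx
    rw [← h2] at hy
    obtain ⟨z, hz, hzy⟩ := hy
    refine ⟨z, hz, ?_⟩
    have h4 : R.subtype y = g * z * g⁻¹ := by
      rw [← hzy]
      simp
    rw [h4] at hyx
    have h5 : g * (z : G) * g⁻¹ = g * x * g⁻¹ := hyx
    simpa using h5

private theorem pgroup_solvable_pp {q : ℕ} [Fact q.Prime] {G : Type} [Group G] [Finite G]
    (hG : IsPGroup q G) : Group.IsSolvable G := by
  have h := hG.isNilpotent
  infer_instance

private theorem ra_pprime_aux (n : ℕ) : ∀ (G : Type) [Group G] [Finite G] (R : Subgroup G)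
    [R.Normal], Nat.card R = n → ¬ p ∣ Nat.card R → ∀ P : Subgroup G, IsPGroup p P →
    Subgroup.normalClosure (P : Set G) = ⊤ →
    RealAct k (P.map (QuotientGroup.mk' R)) → RealAct k P := by
  induction n using Nat.strong_induction_on with
  | _ n ih =>
  intro G _ _ R _ hRn hR P hP hgen h
  by_cases hRe : R = ⊥
  · subst hRe
    exact ra_solvable_kernel ⊥ inferInstance hP hgen h
  have hRcard : Nat.card R ≠ 1 := fun h1 => hRe (Subgroup.card_eq_one.1 h1)
  by_cases hcase : ∃ q : ℕ, ∃ _ : Fact q.Prime, q ∣ Nat.card R ∧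
      ∃ Q : Sylow q R, (Q : Subgroup R).Normal
  · -- a normal Sylow subgroup
    obtain ⟨q, hq, hqR, Q, hQn⟩ := hcase
    have hchar : (Q : Subgroup R).Characteristic := Q.characteristic_of_normal hQn
    have hQG : ((Q : Subgroup R).map R.subtype).Normal := ConjAct.normal_of_characteristic_of_normal
    obtain ⟨V, hV⟩ : ∃ V : Subgroup G, V = (Q : Subgroup R).map R.subtype := ⟨_, rfl⟩
    rw [← hV] at hQG
    have hVR : V ≤ R := by
      rw [hV]
      exact Subgroup.map_subtype_le _
    have hVq : IsPGroup q V := by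
      rw [hV]
      exact Q.isPGroup'.map _
    have hVs : Group.IsSolvable V := pgroup_solvable_pp hVq
    have hVcard : Nat.card V = Nat.card Q := by
      rw [hV]
      exact Nat.card_congr ((Q : Subgroup R).equivMapOfInjective R.subtype
        R.subtype_injective).toEquiv.symm
    have hV1 : 1 < Nat.card V := by
      rw [hVcard]
      have h1 := Q.dvd_card_of_dvd_card hqR
      have h2 : 0 < Nat.card Q := Nat.card_pos
      exact lt_of_lt_of_le hq.1.one_lt (Nat.le_of_dvd h2 h1)
    have hmul : Nat.card V * Nat.card (R.map (QuotientGroup.mk' V)) = Nat.card R := by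
      have h1 := Subgroup.relIndex_ker (K := R) (QuotientGroup.mk' V)
      rw [QuotientGroup.ker_mk'] at h1
      rw [← h1, ← Subgroup.relIndex_bot_left, ← Subgroup.relIndex_bot_left]
      exact Subgroup.relIndex_mul_relIndex ⊥ V R bot_le hVR
    have hcardlt : Nat.card (R.map (QuotientGroup.mk' V)) < n := by
      rw [← hRn, ← hmul]
      have h1 : 0 < Nat.card (R.map (QuotientGroup.mk' V)) := Nat.card_pos
      nlinarith
    have hnd : ¬ p ∣ Nat.card (R.map (QuotientGroup.mk' V)) := by
      intro h1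
      exact hR (hmul ▸ (h1.trans (Dvd.intro_left _ rfl)))
    have h1 : RealAct k (P.map (QuotientGroup.mk' V)) := by
      refine ih _ hcardlt (G ⧸ V) (R.map (QuotientGroup.mk' V)) rfl hnd
        (P.map (QuotientGroup.mk' V)) (hP.map _) ?_ ?_
      · have h1 := Subgroup.map_normalClosure (P : Set G) (QuotientGroup.mk' V)
          (QuotientGroup.mk'_surjective V)
        rw [hgen, Subgroup.map_top_of_surjective _ (QuotientGroup.mk'_surjective V)] at h1
        rw [Subgroup.coe_map]
        exact h1.symm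
      · rw [← ra_iso (QuotientGroup.quotientQuotientEquivQuotient V R hVR)]
        have h1 : P.map (QuotientGroup.mk' R) =
            ((P.map (QuotientGroup.mk' V)).map (QuotientGroup.mk' (R.map (QuotientGroup.mk' V)))).map
              (QuotientGroup.quotientQuotientEquivQuotient V R hVR).toMonoidHom := by
          rw [Subgroup.map_map, Subgroup.map_map]
          congr 1
        rw [h1] at h
        exact h
    exact ra_solvable_kernel V hVs hP hgen h1
  · -- no normal Sylow subgroup
    have hsol : ∀ q : ℕ, ∀ _ : Fact q.Prime, ∀ Q : Sylow q R,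
        P ≤ Subgroup.normalizer (((Q : Subgroup R).map R.subtype : Subgroup G) : Set G) →
        (Q : Subgroup R).map R.subtype ≤ JJ k P ⊔ Subgroup.normalizer (P : Set G) := by
      intro q hq Q hPQ
      obtain ⟨V, hV⟩ : ∃ V : Subgroup G, V = (Q : Subgroup R).map R.subtype := ⟨_, rfl⟩
      rw [← hV] at hPQ ⊢
      have hVR : V ≤ R := by
        rw [hV]
        exact Subgroup.map_subtype_le _
      have hVq : IsPGroup q V := by
        rw [hV]
        exact Q.isPGroup'.map _
      have hVs : Group.IsSolvable V := pgroup_solvable_pp hVq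
      have hPs : Group.IsSolvable P := pgroup_solvable_pp hP
      have hAs := solvable_sup_pp hPQ hVs hPs
      have hd : ¬ p ∣ P.relIndex (V ⊔ P) := by
        intro h1
        exact hR (h1.trans (relIndex_dvd_pp le_sup_right (sup_le_sup_right hVR P)))
      exact le_sup_left.trans (jj_sylow_solvable hP le_sup_right hAs hd)
    have hRW : R ≤ JJ k P ⊔ Subgroup.normalizer (P : Set G) := by
      apply sylow_all_pp
      intro q _ hq
      obtain ⟨Q, hQ⟩ := exists_inv_sylow hP hR q
      exact ⟨Q, hsol q hq Q hQ⟩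
    obtain ⟨q, hq, hqR⟩ := Nat.exists_prime_and_dvd hRcard
    have hqf : Fact q.Prime := ⟨hq⟩
    obtain ⟨Q, hQ⟩ := exists_inv_sylow hP hR q
    have hfr := Sylow.normalizer_sup_eq_top Q
    obtain ⟨H, hPH, hHA, hHR, hgenH⟩ := exists_core hQ hgen hfr
    have hne : ¬ R ≤ H := by
      intro hRH
      apply hcase
      refine ⟨q, hqf, hqR, Q, ?_⟩
      constructor
      intro x hx g
      have h1 := Subgroup.mem_normalizer_iff.1 (hHA (hRH g.2)) (x : G)
      have h2 : (x : G) ∈ (Q : Subgroup R).map R.subtype := ⟨x, hx, rfl⟩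
      obtain ⟨y, hy, hyx⟩ := h1.1 h2
      have h3 : y = g * x * g⁻¹ := Subtype.ext hyx
      rw [← h3]
      exact hy
    have hcardeq : Nat.card (R.subgroupOf H) = Nat.card (R ⊓ H : Subgroup G) := by
      rw [← Subgroup.inf_subgroupOf_right]
      exact Nat.card_congr (Subgroup.subgroupOfEquivOfLe inf_le_right).toEquiv
    have hdvd : Nat.card (R.subgroupOf H) ∣ Nat.card R := by
      rw [hcardeq]
      exact Subgroup.card_dvd_of_le inf_le_left
    have hlt : Nat.card (R.subgroupOf H) < n := by
      rw [← hRn]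
      refine lt_of_le_of_ne (Nat.le_of_dvd Nat.card_pos hdvd) ?_
      intro h1
      rw [hcardeq] at h1
      have h2 : R ⊓ H = R := Subgroup.eq_of_le_of_card_ge inf_le_left h1.ge
      exact hne (inf_eq_left.1 h2)
    have hPH' : IsPGroup p (P.subgroupOf H) := hP.comap_subtype
    have hreal : RealAct k (P.subgroupOf H) :=
      ih _ hlt H (R.subgroupOf H) rfl (fun h1 => hR (h1.trans hdvd)) (P.subgroupOf H) hPH' hgenH
        ((ra_supplement hPH hHR).2 h)
    have hHJ : H ≤ JJ k P := jj_le le_rfl hreal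
    apply jj_crit hP hgen
    rw [eq_top_iff, ← hHR]
    exact sup_le (hHJ.trans le_sup_left) hRW

theorem ra_pprime_kernel (R : Subgroup G) [R.Normal] (hR : ¬ p ∣ Nat.card R)
    {P : Subgroup G} (hP : IsPGroup p P) (hgen : Subgroup.normalClosure (P : Set G) = ⊤)
    (h : RealAct k (P.map (QuotientGroup.mk' R))) : RealAct k P :=
  ra_pprime_aux _ G R rfl hR P hP hgen h

end

end Pool.Agent.Helper54.RT
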