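import Pool.Agent.Helper54.RT.Step

/-!
# RT-10: the reduction theorem

PROOF.
* `hypW_quotient`: let `A', B' ≤ G ⧸ N` be given, `B' ≤ R.map (mk' N)`, etc.  Let `A = A'.comap (mk' N)`,
  `B = B'.comap (mk' N)`.  `A ≤ B ≤ R` (`N ≤ R`), `B` is subnormal (`Subgroup.IsSubnormal.comap` or by induction on the
  definition), `A.subgroupOf B` is normal, and `B ⧸ A.subgroupOf B ≃* B' ⧸ A'.subgroupOf B'` by `mk ⟨b, _⟩ ↦ mk ⟨mk b, _⟩`.
  Every element of `P.map (mk' N)` is `mk y` with `y ∈ P`.  Transport `α'` to `α` on `B ⧸ A.subgroupOf B`;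
  `Ind (mk y) A' B' α'` gives `Ind y A B α`, `orderOf α = p`, and `AA k α` gives `AA k α'` by `ra_aut`.
* `reduction`: strong induction on the order of `G` (for all data).  If `R = ⊥`: `ra_iso` for `QuotientGroup.quotientBot`.
  Otherwise let `N` be a minimal nontrivial subgroup among the normal subgroups of `G` contained in `R`.  By induction for
  `G ⧸ N`, `R.map (mk' N)`, `P.map (mk' N)` (`hypW_quotient`; quotient by the third isomorphism theorem as in
  `reduction_solvable_aux` of SR/Final.lean), `RealAct k (P.map (mk' N))`.  If `N` is abelian use `ra_solvable_kernel`, if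
  `p ∤ |N|` use `ra_pprime_kernel`, otherwise `step_nonabelian`.
* `reduction_iff`: the other direction is `ra_map`.
* `reduction_psolvable`: `HypW` holds vacuously.
-/

set_option autoImplicit false
open scoped Pointwise
open Pool.Agent.Helper54.PW Pool.Agent.Helper54.SJ

namespace Pool.Agent.Helper54.RT

section
variable {p : ℕ} [Fact p.Prime] {k : Type} [Field k]

theorem hypW_quotient {G : Type} [Group G] [Finite G] {N R P : Subgroup G} [N.Normal]
    (hNR : N ≤ R) (h : HypW p k P R) :
    HypW p k (P.map (QuotientGroup.mk' N)) (R.map (QuotientGroup.mk' N)) := by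
  intro A' B' hn' hAB' hBR' hsub' hsimp' hna' hp' y hy α' hα' hind'
  set π := QuotientGroup.mk' N with hπ
  obtain ⟨y0, hy0, rfl⟩ := hy
  have hπs : Function.Surjective π := QuotientGroup.mk'_surjective N
  let f : (B'.comap π : Subgroup G) →* B' := π.subgroupComap B'
  have hfs : Function.Surjective f := by
    rintro ⟨b, hb⟩
    obtain ⟨b0, rfl⟩ := hπs b
    exact ⟨⟨b0, hb⟩, rfl⟩
  have hcomap : (A'.comap π).subgroupOf (B'.comap π) = (A'.subgroupOf B').comap f := by
    ext x
    rfl
  haveI hn : ((A'.comap π).subgroupOf (B'.comap π)).Normal := by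
    rw [hcomap]
    exact hn'.comap f
  have hle : (A'.comap π).subgroupOf (B'.comap π) ≤ (A'.subgroupOf B').comap f := le_of_eq hcomap
  let e0 : (B'.comap π : Subgroup G) ⧸ (A'.comap π).subgroupOf (B'.comap π) →*
      B' ⧸ A'.subgroupOf B' := QuotientGroup.map _ _ f hle
  have he0 : Function.Bijective e0 := by
    constructor
    · rw [injective_iff_map_eq_one]
      intro a ha
      obtain ⟨b, rfl⟩ := QuotientGroup.mk_surjective a
      have h1 : ((f b : B') : B' ⧸ A'.subgroupOf B') = 1 := ha
      rw [QuotientGroup.eq_one_iff] at h1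
      rw [QuotientGroup.eq_one_iff]
      exact h1
    · intro a
      obtain ⟨b, rfl⟩ := QuotientGroup.mk_surjective a
      obtain ⟨b0, rfl⟩ := hfs b
      exact ⟨QuotientGroup.mk b0, rfl⟩
  let e := MulEquiv.ofBijective e0 he0
  have he : ∀ (b : G) (hb : b ∈ B'.comap π), e (QuotientGroup.mk ⟨b, hb⟩) =
      QuotientGroup.mk ⟨π b, hb⟩ := fun b hb => rfl
  let α : MulAut ((B'.comap π : Subgroup G) ⧸ (A'.comap π).subgroupOf (B'.comap π)) :=
    (MulAut.congr e).symm α'
  have hαe : ∀ g, e (α g) = α' (e g) := by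
    intro g
    show e (e.symm (α' (e g))) = α' (e g)
    rw [MulEquiv.apply_symm_apply]
  have hcomBR : B'.comap π ≤ R := by
    have h1 : (R.map π).comap π = R := by
      apply Subgroup.comap_map_eq_self
      rw [hπ, QuotientGroup.ker_mk']
      exact hNR
    rw [← h1]
    exact Subgroup.comap_mono hBR'
  have hAA : AA k α := by
    refine h (A'.comap π) (B'.comap π) (Subgroup.comap_mono hAB') hcomBR (hsub'.comap π) ?_ ?_ ?_
      y0 hy0 α ?_ ?_
    · exact (MulEquiv.isSimpleGroup_congr e).2 hsimp'
    · obtain ⟨a, b, hab⟩ := hna'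
      refine ⟨e.symm a, e.symm b, fun hh => hab ?_⟩
      rw [← map_mul, ← map_mul] at hh
      exact e.symm.injective hh
    · rw [Nat.card_congr e.toEquiv]
      exact hp'
    · rw [← hα']
      exact MulEquiv.orderOf_eq (MulAut.congr e).symm α'
    · intro b hb
      obtain ⟨hb1, hb2⟩ := hind' (π b) hb
      have hb3 : y0 * b * y0⁻¹ ∈ B'.comap π := by
        rw [Subgroup.mem_comap, map_mul, map_mul, map_inv]
        exact hb1
      refine ⟨hb3, e.injective ?_⟩
      rw [hαe, he b hb, hb2, he _ hb3]
      congr 2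
  exact (ra_aut e α α' hαe).1 hAA

theorem reduction (hp3 : 3 ≤ p) [IsAlgClosed k] [CharP k p] (n : ℕ) :
    ∀ (G : Type) [Group G] [Finite G], Nat.card G = n → ∀ (R : Subgroup G) [R.Normal]
      (P : Subgroup G), IsPGroup p P → Subgroup.normalClosure (P : Set G) = ⊤ →
      HypW p k P R → RealAct k (P.map (QuotientGroup.mk' R)) → RealAct k P := by
  induction n using Nat.strong_induction_on with
  | _ n ih =>
  intro G _ _ hG R hR P hP hgen hyp h
  by_cases hRe : R = ⊥
  · subst hRe
    exact (ra_iso (QuotientGroup.quotientBot (G := G)).symm).1 h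
  · obtain ⟨N, ⟨hNn, hNR, hNe⟩, hmin0⟩ := (wellFounded_lt (α := Subgroup G)).has_min
      {W | W.Normal ∧ W ≤ R ∧ W ≠ ⊥} ⟨R, hR, le_rfl, hRe⟩
    haveI := hNn
    have hmin : ∀ W : Subgroup G, W.Normal → W ≤ N → W = ⊥ ∨ W = N := by
      intro W hW hWN
      by_cases hWe : W = ⊥
      · exact Or.inl hWe
      · exact Or.inr (eq_of_le_of_not_lt hWN (hmin0 W ⟨hW, hWN.trans hNR, hWe⟩))
    have hcard : Nat.card (G ⧸ N) < n := by
      rw [← hG, Subgroup.card_eq_card_quotient_mul_card_subgroup N]
      have h1 : 0 < Nat.card (G ⧸ N) := Nat.card_pos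
      have h2 : 1 < Nat.card N := by
        have : Nontrivial N := (Subgroup.nontrivial_iff_ne_bot N).2 hNe
        exact Finite.one_lt_card
      nlinarith
    have hgen' : Subgroup.normalClosure ((P.map (QuotientGroup.mk' N) : Subgroup (G ⧸ N)) :
        Set (G ⧸ N)) = ⊤ := by
      have h1 := Subgroup.map_normalClosure (P : Set G) (QuotientGroup.mk' N)
        (QuotientGroup.mk'_surjective N)
      rw [hgen, Subgroup.map_top_of_surjective _ (QuotientGroup.mk'_surjective N)] at h1
      rw [Subgroup.coe_map]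
      exact h1.symm
    have h' : RealAct k (P.map (QuotientGroup.mk' N)) := by
      refine ih _ hcard (G ⧸ N) rfl (R.map (QuotientGroup.mk' N)) (P.map (QuotientGroup.mk' N))
        (hP.map _) hgen' (hypW_quotient hNR hyp) ?_
      refine (ra_iso (QuotientGroup.quotientQuotientEquivQuotient N R hNR)).1 ?_
      have h1 : P.map (QuotientGroup.mk' R) =
          ((P.map (QuotientGroup.mk' N)).map (QuotientGroup.mk' (R.map (QuotientGroup.mk' N)))).map
            (QuotientGroup.quotientQuotientEquivQuotient N R hNR).toMonoidHom := by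
        rw [Subgroup.map_map, Subgroup.map_map]
        congr 1
      rw [h1] at h
      exact h
    by_cases hab : ∀ a b : N, a * b = b * a
    · exact ra_solvable_kernel N (Group.isSolvable_of_comm hab) hP hgen h'
    · by_cases hpN : p ∣ Nat.card N
      · push Not at hab
        exact step_nonabelian hp3 N R hNR hmin hab hpN hP hgen hyp h'
      · exact ra_pprime_kernel N hpN hP hgen h'

theorem reduction_iff (hp3 : 3 ≤ p) [IsAlgClosed k] [CharP k p] {G : Type} [Group G] [Finite G]
    (R : Subgroup G) [R.Normal] {P : Subgroup G} (hP : IsPGroup p P)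
    (hgen : Subgroup.normalClosure (P : Set G) = ⊤) (hyp : HypW p k P R) :
    RealAct k P ↔ RealAct k (P.map (QuotientGroup.mk' R)) :=
  ⟨fun h => ra_map (QuotientGroup.mk' R) (QuotientGroup.mk'_surjective R) h,
    fun h => reduction hp3 _ G rfl R P hP hgen hyp h⟩

theorem reduction_psolvable (hp3 : 3 ≤ p) [IsAlgClosed k] [CharP k p] {G : Type} [Group G]
    [Finite G] (R : Subgroup G) [R.Normal]
    (hR : ∀ (A B : Subgroup G) [(A.subgroupOf B).Normal], A ≤ B → B ≤ R → B.IsSubnormal →
      IsSimpleGroup (B ⧸ A.subgroupOf B) → (∃ a b : B ⧸ A.subgroupOf B, a * b ≠ b * a) →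
      ¬ p ∣ Nat.card (B ⧸ A.subgroupOf B))
    {P : Subgroup G} (hP : IsPGroup p P)
    (hgen : Subgroup.normalClosure (P : Set G) = ⊤) :
    RealAct k P ↔ RealAct k (P.map (QuotientGroup.mk' R)) := by
  apply reduction_iff hp3 R hP hgen
  intro A B hn hAB hBR hsub hs hna hp
  exact absurd hp (hR A B hAB hBR hsub hs hna)

end

end Pool.Agent.Helper54.RT
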