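import Pool.Agent.Helper54.RT.JJ

/-!
# RT-06: an element of `P` which permutes p commuting conjugates of a simple subgroup

Notation: `a^(i) = x^i a x⁻^i`.  `hcomm` says that `S^(i)` and `S^(j)` commute elementwise for `i ≠ j < p`, and `x^p`
centralizes `S` (so `a^(p) = a`).

PROOF.
* `caseB_elt`: let `a ∈ S` have order prime to `p`.  The elements `a^(i)`, `0 ≤ i < p`, commute; `E` = the subgroup generated
  by them is commutative of order prime to `p`, and is normalized by `x` (`x a^(i) x⁻¹ = a^(i+1)`, `a^(p) = a`), and `x^p`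
  centralizes it.  `F = {e⁻¹ (x e x⁻¹) : e ∈ E}` is a subgroup (image of an endomorphism `d` of `E`).  `d(F) = F`: for `e ∈ E`
  let `ν e = ∏_{i<p} x^i e x⁻^i`; `x` centralizes `ν e`, and `e^p = ν e * ∏_i (e * (x^i e x⁻^i)⁻¹)` where
  `e (x^i e x⁻^i)⁻¹ ∈ F`; as `e ↦ e^p` is bijective on `E`, `E = C_E(x) F`, so `F = d(E) = d(F)`.
  `H = F ⊔ zpowers x` is solvable (`F` is commutative and normalized by `x`), and its normal closure of `zpowers x` is
  `H`: it contains `f⁻¹ (x f x⁻¹) = (f⁻¹ x f) x⁻¹` for `f ∈ F`, so `d(F) = F`.  `jj_solvable` with `P1 = zpowers x` gives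
  `H ≤ JJ k P`, and `a⁻¹ * (x a x⁻¹) ∈ F`.
* `caseB`: let `a, b ∈ S` have order prime to `p`.  `u = a⁻¹ (x a x⁻¹) ∈ JJ`.  As `x ∈ JJ` (`le_jj`), also
  `x b⁻¹(x b x⁻¹) x⁻¹ ∈ JJ`, so `v = b⁻¹ (x^2 b x⁻²) = (b⁻¹ x b x⁻¹) (x (b⁻¹ x b x⁻¹) x⁻¹) ∈ JJ`.
  As `p ≥ 3`, `S, S^(1), S^(2)` commute pairwise, and the commutator of `u` and `v` is `⁅a⁻¹, b⁻¹⁆ ∈ JJ`.
  Let `C` be the subgroup of `S` generated by all `⁅a, b⁆` with `a, b` of order prime to `p`; it is normal in `S` and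
  contained in `JJ k P`, so it is `⊥` or `S`.  If it is `⊥`, all elements of order prime to `p` commute; they generate a
  normal subgroup of `S`: if it is `S`, then `S` is commutative; if it is `⊥`, then `S` is a `p`-group (every element is a
  product of commuting powers of itself of `p`-power order and of order prime to `p`), so it has nontrivial center, and it
  is commutative; contradiction to `hna`.
-/

set_option autoImplicit false
open scoped Pointwise commutatorElement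
open Pool.Agent.Helper54.PW Pool.Agent.Helper54.SJ

namespace Pool.Agent.Helper54.RT

section aux

theorem caseB_aux1 {E : Type} [CommGroup E] (φ : E →* E) (p q : ℕ) (hφ : ∀ b, φ^[p] b = b)
    (hq : ∀ b : E, b ^ q = 1) (hpq : Nat.Coprime p q) (e : E) :
    ∃ y z : E, φ z = z ∧ e = z * (y⁻¹ * φ y) := by
  obtain ⟨b, hb⟩ : ∃ b : E, b ^ p = e := by
    refine ⟨e ^ (Nat.gcdA p q), ?_⟩
    have h1 : ((1 : ℕ) : ℤ) = p * Nat.gcdA p q + q * Nat.gcdB p q := by
      rw [← Nat.gcd_eq_gcd_ab, hpq]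
    calc (e ^ (Nat.gcdA p q)) ^ p = e ^ ((p : ℤ) * Nat.gcdA p q) := by
          rw [← zpow_natCast, ← zpow_mul, mul_comm]
      _ = e ^ ((p : ℤ) * Nat.gcdA p q) * (e ^ q) ^ (Nat.gcdB p q) := by
          rw [hq, one_zpow, mul_one]
      _ = e ^ ((p : ℤ) * Nat.gcdA p q + q * Nat.gcdB p q) := by
          rw [zpow_add, zpow_mul e (q : ℤ), zpow_natCast]
      _ = e := by rw [← h1]; simp
  have hstep : ∀ n : ℕ, ∃ w : E, b = φ^[n] b * (w⁻¹ * φ w) := by
    intro n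
    induction n with
    | zero => exact ⟨1, by simp⟩
    | succ n ih =>
      obtain ⟨w, hw⟩ := ih
      refine ⟨w * (φ^[n] b)⁻¹, ?_⟩
      rw [Function.iterate_succ_apply', map_mul, map_inv]
      conv_lhs => rw [hw]
      have h1 : (w * (φ^[n] b)⁻¹)⁻¹ = w⁻¹ * φ^[n] b := by
        rw [mul_inv, inv_inv]
      rw [h1]
      calc φ^[n] b * (w⁻¹ * φ w) = φ^[n] b * (w⁻¹ * φ w) * (φ (φ^[n] b) * (φ (φ^[n] b))⁻¹) := by
            rw [mul_inv_cancel, mul_one]
        _ = φ (φ^[n] b) * (w⁻¹ * φ^[n] b * (φ w * (φ (φ^[n] b))⁻¹)) := by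
            simp only [mul_comm, mul_left_comm, mul_assoc]
  have hsum : ∀ n : ℕ, ∃ y : E, b ^ n = (∏ i ∈ Finset.range n, φ^[i] b) * (y⁻¹ * φ y) := by
    intro n
    induction n with
    | zero => exact ⟨1, by simp⟩
    | succ n ih =>
      obtain ⟨y, hy⟩ := ih
      obtain ⟨w, hw⟩ := hstep n
      refine ⟨y * w, ?_⟩
      rw [pow_succ, hy, Finset.prod_range_succ, map_mul, mul_inv]
      calc (∏ i ∈ Finset.range n, φ^[i] b) * (y⁻¹ * φ y) * b
          = (∏ i ∈ Finset.range n, φ^[i] b) * (y⁻¹ * φ y) * (φ^[n] b * (w⁻¹ * φ w)) := by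
            rw [← hw]
        _ = _ := by simp only [mul_comm, mul_left_comm, mul_assoc]
  obtain ⟨y, hy⟩ := hsum p
  refine ⟨y, ∏ i ∈ Finset.range p, φ^[i] b, ?_, by rw [← hb]; exact hy⟩
  have h1 : φ (∏ i ∈ Finset.range p, φ^[i] b) = ∏ i ∈ Finset.range p, φ^[i + 1] b := by
    rw [map_prod]
    refine Finset.prod_congr rfl fun i _ => ?_
    rw [Function.iterate_succ_apply']
  rw [h1]
  have h2 := Finset.prod_range_succ (fun i => φ^[i] b) p
  have h3 := Finset.prod_range_succ' (fun i => φ^[i] b) p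
  rw [h3] at h2
  simp only [Function.iterate_zero, id_eq] at h2
  rw [hφ] at h2
  exact mul_right_cancel h2

theorem caseB_aux2 {G : Type} [Group G] (F : Subgroup G) (x : G)
    (hF : ∀ a ∈ F, ∀ b ∈ F, a * b = b * a)
    (hx : x ∈ Subgroup.normalizer (F : Set G)) :
    Group.IsSolvable ↥(F ⊔ Subgroup.zpowers x) := by
  have hxn : ∀ (n : ℤ) (f : G), f ∈ F → x ^ n * f * (x ^ n)⁻¹ ∈ F := by
    intro n f hf
    have h1 : x ^ n ∈ Subgroup.normalizer (F : Set G) := Subgroup.zpow_mem _ hx n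
    exact (Subgroup.mem_normalizer_iff.1 h1 f).1 hf
  let K : Subgroup G :=
    { carrier := {g | ∃ f ∈ F, ∃ n : ℤ, g = f * x ^ n}
      one_mem' := ⟨1, F.one_mem, 0, by simp⟩
      mul_mem' := by
        rintro _ _ ⟨f, hf, n, rfl⟩ ⟨f', hf', m, rfl⟩
        refine ⟨f * (x ^ n * f' * (x ^ n)⁻¹), F.mul_mem hf (hxn n f' hf'), n + m, ?_⟩
        rw [zpow_add]; group
      inv_mem' := by
        rintro _ ⟨f, hf, n, rfl⟩
        refine ⟨x ^ (-n) * f⁻¹ * (x ^ (-n))⁻¹, hxn _ _ (F.inv_mem hf), -n, ?_⟩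
        group }
  have hK : ∀ g ∈ F ⊔ Subgroup.zpowers x, ∃ f ∈ F, ∃ n : ℤ, g = f * x ^ n := by
    have h1 : F ⊔ Subgroup.zpowers x ≤ K := by
      refine sup_le ?_ ?_
      · intro f hf
        exact ⟨f, hf, 0, by simp⟩
      · rw [Subgroup.zpowers_le]
        exact ⟨1, F.one_mem, 1, by simp⟩
    exact fun g hg => h1 hg
  have hcomm : ∀ g1 ∈ F ⊔ Subgroup.zpowers x, ∀ g2 ∈ F ⊔ Subgroup.zpowers x,
      ⁅g1, g2⁆ ∈ F := by
    intro g1 h1 g2 h2
    obtain ⟨f, hf, n, rfl⟩ := hK g1 h1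
    obtain ⟨f', hf', m, rfl⟩ := hK g2 h2
    have e : ⁅f * x ^ n, f' * x ^ m⁆ =
        f * (x ^ n * f' * (x ^ n)⁻¹) * (x ^ m * f⁻¹ * (x ^ m)⁻¹) * f'⁻¹ := by
      rw [commutatorElement_def]
      have h3 : x ^ n * x ^ m = x ^ m * x ^ n := by rw [← zpow_add, ← zpow_add, add_comm]
      have h4 : x ^ m * (x ^ n)⁻¹ = (x ^ n)⁻¹ * x ^ m := by
        rw [← zpow_neg, ← zpow_add, ← zpow_add, add_comm]
      calc f * x ^ n * (f' * x ^ m) * (f * x ^ n)⁻¹ * (f' * x ^ m)⁻¹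
          = f * x ^ n * f' * (x ^ m * (x ^ n)⁻¹) * f⁻¹ * (x ^ m)⁻¹ * f'⁻¹ := by group
        _ = f * x ^ n * f' * ((x ^ n)⁻¹ * x ^ m) * f⁻¹ * (x ^ m)⁻¹ * f'⁻¹ := by rw [h4]
        _ = _ := by group
    rw [e]
    exact F.mul_mem (F.mul_mem (F.mul_mem hf (hxn _ _ hf')) (hxn _ _ (F.inv_mem hf)))
      (F.inv_mem hf')
  refine ⟨⟨2, ?_⟩⟩
  have hd1 : derivedSeries ↥(F ⊔ Subgroup.zpowers x) 1 ≤ F.subgroupOf (F ⊔ Subgroup.zpowers x) := by
    rw [derivedSeries_succ, derivedSeries_zero, Subgroup.commutator_le]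
    intro g1 _ g2 _
    rw [Subgroup.mem_subgroupOf]
    exact hcomm g1 g1.2 g2 g2.2
  rw [derivedSeries_succ, eq_bot_iff, Subgroup.commutator_le]
  intro g1 h1 g2 h2
  have h3 := Subgroup.mem_subgroupOf.1 (hd1 h1)
  have h4 := Subgroup.mem_subgroupOf.1 (hd1 h2)
  rw [Subgroup.mem_bot]
  have h5 : g1 * g2 = g2 * g1 := Subtype.ext (hF _ h3 _ h4)
  exact commutatorElement_eq_one_iff_mul_comm.2 h5

end aux

section
variable {p : ℕ} [Fact p.Prime] {k : Type} [Field k] [IsAlgClosed k] [CharP k p] {G : Type}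
  [Group G] [Finite G]

theorem caseB_aux3 {P : Subgroup G} (hP : IsPGroup p P) (x : G) (hx : x ∈ P) (E : Subgroup G)
    (hE : ∀ a ∈ E, ∀ b ∈ E, a * b = b * a) (hxE : x ∈ Subgroup.normalizer (E : Set G))
    (hxp : ∀ e ∈ E, x ^ p * e * (x ^ p)⁻¹ = e) (q : ℕ) (hq : ∀ e ∈ E, e ^ q = 1)
    (hpq : Nat.Coprime p q) : ∀ e ∈ E, e⁻¹ * (x * e * x⁻¹) ∈ JJ k P := by
  have hEx : ∀ e ∈ E, x * e * x⁻¹ ∈ E := fun e he => (Subgroup.mem_normalizer_iff.1 hxE e).1 he
  let F : Subgroup G :=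
    { carrier := {g | ∃ e ∈ E, g = e⁻¹ * (x * e * x⁻¹)}
      one_mem' := ⟨1, E.one_mem, by simp⟩
      mul_mem' := by
        rintro _ _ ⟨e1, h1, rfl⟩ ⟨e2, h2, rfl⟩
        refine ⟨e1 * e2, E.mul_mem h1 h2, ?_⟩
        have c1 := hE (x * e1 * x⁻¹) (hEx _ h1) e2⁻¹ (E.inv_mem h2)
        have c2 := hE e1⁻¹ (E.inv_mem h1) e2⁻¹ (E.inv_mem h2)
        calc e1⁻¹ * (x * e1 * x⁻¹) * (e2⁻¹ * (x * e2 * x⁻¹))
            = e1⁻¹ * ((x * e1 * x⁻¹) * e2⁻¹) * (x * e2 * x⁻¹) := by group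
          _ = (e1⁻¹ * e2⁻¹) * (x * e1 * x⁻¹) * (x * e2 * x⁻¹) := by rw [c1]; group
          _ = (e2⁻¹ * e1⁻¹) * (x * e1 * x⁻¹) * (x * e2 * x⁻¹) := by rw [c2]
          _ = (e1 * e2)⁻¹ * (x * (e1 * e2) * x⁻¹) := by group
      inv_mem' := by
        rintro _ ⟨e, he, rfl⟩
        refine ⟨e⁻¹, E.inv_mem he, ?_⟩
        have c1 := hE (x * e * x⁻¹)⁻¹ (E.inv_mem (hEx _ he)) e he
        calc (e⁻¹ * (x * e * x⁻¹))⁻¹ = (x * e * x⁻¹)⁻¹ * e := by group
          _ = e * (x * e * x⁻¹)⁻¹ := c1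
          _ = (e⁻¹)⁻¹ * (x * e⁻¹ * x⁻¹) := by group }
  have hFmem : ∀ e ∈ E, e⁻¹ * (x * e * x⁻¹) ∈ F := fun e he => ⟨e, he, rfl⟩
  have hFE : F ≤ E := by
    rintro _ ⟨e, he, rfl⟩
    exact E.mul_mem (E.inv_mem he) (hEx e he)
  have hxF : x ∈ Subgroup.normalizer (F : Set G) := by
    rw [Subgroup.mem_normalizer_iff]
    intro g
    constructor
    · rintro ⟨e, he, rfl⟩
      exact ⟨x * e * x⁻¹, hEx e he, by group⟩
    · rintro ⟨e, he, h1⟩
      have h2 : x⁻¹ * e * x ∈ E := (Subgroup.mem_normalizer_iff''.1 hxE e).1 he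
      refine ⟨x⁻¹ * e * x, h2, ?_⟩
      have h3 : g = x⁻¹ * (x * g * x⁻¹) * x := by group
      rw [h3, h1]
      group
  have hF : ∀ a ∈ F, ∀ b ∈ F, a * b = b * a := fun a ha b hb => hE a (hFE ha) b (hFE hb)
  have hdec : ∀ e ∈ E, ∃ f ∈ F, e⁻¹ * (x * e * x⁻¹) = f⁻¹ * (x * f * x⁻¹) := by
    intro e he
    letI : CommGroup E :=
      { (inferInstance : Group E) with
        mul_comm := fun a b => Subtype.ext (hE a a.2 b b.2) }
    let φ : E →* E :=
      { toFun := fun b => ⟨x * b * x⁻¹, hEx b b.2⟩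
        map_one' := by
          apply Subtype.ext
          simp
        map_mul' := by
          intro a b
          apply Subtype.ext
          simp }
    have hit : ∀ (n : ℕ) (b : E), ((φ^[n] b : E) : G) = x ^ n * b * (x ^ n)⁻¹ := by
      intro n b
      induction n with
      | zero => simp
      | succ n ih =>
        rw [Function.iterate_succ_apply']
        change x * ((φ^[n] b : E) : G) * x⁻¹ = _
        rw [ih, pow_succ']
        group
    obtain ⟨y, z, hz, hyz⟩ := caseB_aux1 φ p q (fun b => Subtype.ext (by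
      rw [hit]; exact hxp b b.2)) (fun b => Subtype.ext (by
      have := hq b b.2
      simpa using this)) hpq ⟨e, he⟩
    have hz' : x * (z : G) * x⁻¹ = z := congrArg Subtype.val hz
    have hyz' : e = z * ((y : G)⁻¹ * (x * y * x⁻¹)) := congrArg Subtype.val hyz
    refine ⟨(y : G)⁻¹ * (x * y * x⁻¹), hFmem y y.2, ?_⟩
    set f : G := (y : G)⁻¹ * (x * y * x⁻¹) with hf
    rw [hyz']
    calc ((z : G) * f)⁻¹ * (x * (z * f) * x⁻¹) = f⁻¹ * (z : G)⁻¹ * (x * z * x⁻¹) * (x * f * x⁻¹) := by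
          group
      _ = f⁻¹ * (x * f * x⁻¹) := by rw [hz']; group
  have hFH : F ≤ F ⊔ Subgroup.zpowers x := le_sup_left
  have hxH : x ∈ F ⊔ Subgroup.zpowers x :=
    (le_sup_right : Subgroup.zpowers x ≤ _) (Subgroup.mem_zpowers x)
  have hmain : F ⊔ Subgroup.zpowers x ≤ JJ k P := by
    refine jj_solvable hP (P1 := Subgroup.zpowers x) ?_ (caseB_aux2 F x hF hxF) ?_
    · rw [Subgroup.zpowers_le]; exact hx
    · set N := Subgroup.normalClosure (((Subgroup.zpowers x).subgroupOf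
        (F ⊔ Subgroup.zpowers x) : Subgroup ↥(F ⊔ Subgroup.zpowers x)) :
        Set ↥(F ⊔ Subgroup.zpowers x)) with hN
      have hxN : (⟨x, hxH⟩ : ↥(F ⊔ Subgroup.zpowers x)) ∈ N :=
        Subgroup.subset_normalClosure (Subgroup.mem_subgroupOf.2 (Subgroup.mem_zpowers x))
      have hle : F ⊔ Subgroup.zpowers x ≤ N.map (F ⊔ Subgroup.zpowers x).subtype := by
        refine sup_le ?_ ?_
        · rintro g ⟨e, he, rfl⟩
          obtain ⟨f, hf, h1⟩ := hdec e he
          have hfH : f ∈ F ⊔ Subgroup.zpowers x := hFH hf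
          have hn : N.Normal := Subgroup.normalClosure_normal
          have h2 := hn.conj_mem _ hxN (⟨f, hfH⟩⁻¹)
          have h3 := N.mul_mem h2 (N.inv_mem hxN)
          refine ⟨_, h3, ?_⟩
          change f⁻¹ * x * (f⁻¹)⁻¹ * x⁻¹ = _
          rw [h1]
          group
        · rw [Subgroup.zpowers_le]
          exact ⟨_, hxN, rfl⟩
      rw [eq_top_iff]
      rintro ⟨g, hg⟩ -
      obtain ⟨n, hn, h1⟩ := hle hg
      have h2 : n = ⟨g, hg⟩ := Subtype.ext h1
      rw [← h2]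
      exact hn
  intro e he
  exact hmain (hFH (hFmem e he))

theorem caseB_elt {P S : Subgroup G} (hP : IsPGroup p P) (x : G) (hx : x ∈ P)
    (hcomm : ∀ i < p, ∀ j < p, i ≠ j → ∀ a ∈ S, ∀ b ∈ S,
      Commute (x ^ i * a * (x ^ i)⁻¹) (x ^ j * b * (x ^ j)⁻¹))
    (hxp : ∀ a ∈ S, x ^ p * a * (x ^ p)⁻¹ = a) (a : G) (ha : a ∈ S) (hap : ¬ p ∣ orderOf a) :
    a⁻¹ * (x * a * x⁻¹) ∈ JJ k P := by
  have hp : p.Prime := Fact.out
  have hppos : 0 < p := hp.pos
  -- periodicity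
  have hxpa : Commute (x ^ p) a := by
    have h1 := hxp a ha
    rw [mul_inv_eq_iff_eq_mul] at h1
    exact h1
  have hper : ∀ n : ℕ, x ^ n * a * (x ^ n)⁻¹ = x ^ (n % p) * a * (x ^ (n % p))⁻¹ := by
    intro n
    have h1 : x ^ n = x ^ (n % p) * (x ^ p) ^ (n / p) := by
      rw [← pow_mul, ← pow_add, Nat.mod_add_div]
    have h2 : Commute ((x ^ p) ^ (n / p)) a := hxpa.pow_left _
    calc x ^ n * a * (x ^ n)⁻¹
        = x ^ (n % p) * ((x ^ p) ^ (n / p) * a) * (x ^ (n % p) * (x ^ p) ^ (n / p))⁻¹ := by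
          rw [h1]; group
      _ = x ^ (n % p) * a * (x ^ (n % p))⁻¹ := by rw [h2.eq]; group
  set T : Set G := Set.range (fun n : ℕ => x ^ n * a * (x ^ n)⁻¹) with hT
  have hTc : ∀ u ∈ T, ∀ v ∈ T, u * v = v * u := by
    rintro _ ⟨n, rfl⟩ _ ⟨m, rfl⟩
    simp only
    rw [hper n, hper m]
    by_cases h1 : n % p = m % p
    · rw [h1]
    · exact (hcomm _ (Nat.mod_lt _ hppos) _ (Nat.mod_lt _ hppos) h1 a ha a ha).eq
  have hcl := Subgroup.isMulCommutative_closure hTc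
  set E : Subgroup G := Subgroup.closure T with hE
  have hEc : ∀ u ∈ E, ∀ v ∈ E, u * v = v * u := by
    intro u hu v hv
    have := hcl.is_comm.comm ⟨u, hu⟩ ⟨v, hv⟩
    exact congrArg Subtype.val this
  have haE : a ∈ E := Subgroup.subset_closure ⟨0, by simp⟩
  have hxE1 : ∀ e ∈ E, x * e * x⁻¹ ∈ E := by
    intro e he
    induction he using Subgroup.closure_induction with
    | mem u hu =>
      obtain ⟨n, rfl⟩ := hu
      refine Subgroup.subset_closure ⟨n + 1, ?_⟩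
      simp only
      rw [pow_succ']
      group
    | one => simpa using E.one_mem
    | mul u v _ _ h1 h2 =>
      have : x * (u * v) * x⁻¹ = (x * u * x⁻¹) * (x * v * x⁻¹) := by group
      rw [this]
      exact E.mul_mem h1 h2
    | inv u _ h1 =>
      have : x * u⁻¹ * x⁻¹ = (x * u * x⁻¹)⁻¹ := by group
      rw [this]
      exact E.inv_mem h1
  have hxEn : ∀ (n : ℕ) (e : G), e ∈ E → x ^ n * e * (x ^ n)⁻¹ ∈ E := by
    intro n
    induction n with
    | zero => intro e he; simpa using he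
    | succ n ih =>
      intro e he
      have : x ^ (n + 1) * e * (x ^ (n + 1))⁻¹ = x * (x ^ n * e * (x ^ n)⁻¹) * x⁻¹ := by
        rw [pow_succ']; group
      rw [this]
      exact hxE1 _ (ih e he)
  have hxpE : ∀ e ∈ E, x ^ p * e * (x ^ p)⁻¹ = e := by
    intro e he
    induction he using Subgroup.closure_induction with
    | mem u hu =>
      obtain ⟨n, rfl⟩ := hu
      simp only
      have h1 : x ^ p * (x ^ n * a * (x ^ n)⁻¹) * (x ^ p)⁻¹ =
          x ^ n * (x ^ p * a * (x ^ p)⁻¹) * (x ^ n)⁻¹ := by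
        have h2 : x ^ p * x ^ n = x ^ n * x ^ p := by rw [← pow_add, ← pow_add, add_comm]
        calc x ^ p * (x ^ n * a * (x ^ n)⁻¹) * (x ^ p)⁻¹
            = (x ^ p * x ^ n) * a * (x ^ p * x ^ n)⁻¹ := by group
          _ = (x ^ n * x ^ p) * a * (x ^ n * x ^ p)⁻¹ := by rw [h2]
          _ = _ := by group
      rw [h1, hxp a ha]
    | one => simp
    | mul u v _ _ h1 h2 =>
      have : x ^ p * (u * v) * (x ^ p)⁻¹ = (x ^ p * u * (x ^ p)⁻¹) * (x ^ p * v * (x ^ p)⁻¹) := by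
        group
      rw [this, h1, h2]
    | inv u _ h1 =>
      have : x ^ p * u⁻¹ * (x ^ p)⁻¹ = (x ^ p * u * (x ^ p)⁻¹)⁻¹ := by group
      rw [this, h1]
  have hxE : x ∈ Subgroup.normalizer (E : Set G) := by
    rw [Subgroup.mem_normalizer_iff]
    intro g
    refine ⟨hxE1 g, fun hg => ?_⟩
    have h1 := hxEn (p - 1) _ hg
    have h2 : x ^ (p - 1) * (x * g * x⁻¹) * (x ^ (p - 1))⁻¹ = x ^ p * g * (x ^ p)⁻¹ := by
      have h3 : x ^ (p - 1) * x = x ^ p := by
        rw [← pow_succ, Nat.sub_add_cancel hppos]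
      calc x ^ (p - 1) * (x * g * x⁻¹) * (x ^ (p - 1))⁻¹
          = (x ^ (p - 1) * x) * g * (x ^ (p - 1) * x)⁻¹ := by group
        _ = _ := by rw [h3]
    rw [h2] at h1
    have h4 := hxpE _ h1
    have h5 : x ^ p * (x ^ p * g * (x ^ p)⁻¹) * (x ^ p)⁻¹ = x ^ p * g * (x ^ p)⁻¹ := h4
    have h6 : x ^ p * g * (x ^ p)⁻¹ = g := by
      have h7 : (x ^ p)⁻¹ * (x ^ p * (x ^ p * g * (x ^ p)⁻¹) * (x ^ p)⁻¹) * x ^ p =
          (x ^ p)⁻¹ * (x ^ p * g * (x ^ p)⁻¹) * x ^ p := by rw [h5]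
      have h8 : (x ^ p)⁻¹ * (x ^ p * (x ^ p * g * (x ^ p)⁻¹) * (x ^ p)⁻¹) * x ^ p =
          x ^ p * g * (x ^ p)⁻¹ := by group
      have h9 : (x ^ p)⁻¹ * (x ^ p * g * (x ^ p)⁻¹) * x ^ p = g := by group
      rw [← h8, h7, h9]
    rwa [h6] at h1
  have hq : ∀ e ∈ E, e ^ (orderOf a) = 1 := by
    intro e he
    induction he using Subgroup.closure_induction with
    | mem u hu =>
      obtain ⟨n, rfl⟩ := hu
      simp only
      rw [conj_pow, pow_orderOf_eq_one]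
      group
    | one => simp
    | mul u v hu hv h1 h2 =>
      have hc : Commute u v := hEc u hu v hv
      rw [hc.mul_pow, h1, h2, one_mul]
    | inv u _ h1 => rw [inv_pow, h1, inv_one]
  exact caseB_aux3 hP x hx E hEc hxE hxpE (orderOf a) hq
    ((Nat.Prime.coprime_iff_not_dvd hp).2 hap) a haE

theorem caseB (hp3 : 3 ≤ p) {P S : Subgroup G} (hP : IsPGroup p P) (hS : IsSimpleGroup S)
    (hna : ∃ a b : S, a * b ≠ b * a) (x : G) (hx : x ∈ P)
    (hcomm : ∀ i < p, ∀ j < p, i ≠ j → ∀ a ∈ S, ∀ b ∈ S,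
      Commute (x ^ i * a * (x ^ i)⁻¹) (x ^ j * b * (x ^ j)⁻¹))
    (hxp : ∀ a ∈ S, x ^ p * a * (x ^ p)⁻¹ = a) : S ≤ JJ k P := by
  have hp : p.Prime := Fact.out
  have hxJ : x ∈ JJ k P := le_jj P hx
  have hel := caseB_elt (k := k) hP x hx hcomm hxp
  -- commutators of elements of order prime to p
  have hkey : ∀ a ∈ S, ∀ b ∈ S, ¬ p ∣ orderOf a → ¬ p ∣ orderOf b →
      a⁻¹ * b⁻¹ * a * b ∈ JJ k P := by
    intro a ha b hb hap hbp
    have hu := hel a ha hap
    have hw := hel b hb hbp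
    have hv : b⁻¹ * (x ^ 2 * b * (x ^ 2)⁻¹) ∈ JJ k P := by
      have h1 : b⁻¹ * (x ^ 2 * b * (x ^ 2)⁻¹) =
          (b⁻¹ * (x * b * x⁻¹)) * (x * (b⁻¹ * (x * b * x⁻¹)) * x⁻¹) := by
        rw [pow_two]; group
      rw [h1]
      exact (JJ k P).mul_mem hw ((JJ k P).mul_mem ((JJ k P).mul_mem hxJ hw)
        ((JJ k P).inv_mem hxJ))
    have c01 : ∀ s ∈ S, ∀ t ∈ S, Commute s (x * t * x⁻¹) := by
      intro s hs t ht
      have := hcomm 0 (by omega) 1 (by omega) (by omega) s hs t ht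
      simpa using this
    have c02 : ∀ s ∈ S, ∀ t ∈ S, Commute s (x ^ 2 * t * (x ^ 2)⁻¹) := by
      intro s hs t ht
      have := hcomm 0 (by omega) 2 (by omega) (by omega) s hs t ht
      simpa using this
    have c12 : ∀ s ∈ S, ∀ t ∈ S, Commute (x * s * x⁻¹) (x ^ 2 * t * (x ^ 2)⁻¹) := by
      intro s hs t ht
      have := hcomm 1 (by omega) 2 (by omega) (by omega) s hs t ht
      simpa using this
    set a1 := x * a * x⁻¹ with ha1
    set b2 := x ^ 2 * b * (x ^ 2)⁻¹ with hb2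
    have hc1 : Commute b⁻¹ a1 := c01 b⁻¹ (S.inv_mem hb) a ha
    have hc2 : Commute b a1 := c01 b hb a ha
    have hc3 : Commute a b2 := c02 a ha b hb
    have hc4 : Commute a1 b2 := c12 a ha b hb
    have hJ := (JJ k P).mul_mem ((JJ k P).mul_mem hu hv)
      ((JJ k P).mul_mem ((JJ k P).inv_mem hu) ((JJ k P).inv_mem hv))
    have he : a⁻¹ * a1 * (b⁻¹ * b2) * ((a⁻¹ * a1)⁻¹ * (b⁻¹ * b2)⁻¹) = a⁻¹ * b⁻¹ * a * b := by
      calc a⁻¹ * a1 * (b⁻¹ * b2) * ((a⁻¹ * a1)⁻¹ * (b⁻¹ * b2)⁻¹)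
          = a⁻¹ * (a1 * b⁻¹) * (b2 * a1⁻¹) * (a * b2⁻¹) * b := by group
        _ = a⁻¹ * (b⁻¹ * a1) * (a1⁻¹ * b2) * (b2⁻¹ * a) * b := by
            rw [← hc1.eq, ← (hc4.inv_left).eq, (hc3.inv_right).eq]
        _ = a⁻¹ * b⁻¹ * a * b := by group
    rw [he] at hJ
    exact hJ
  -- the subgroup generated by the commutators
  set C0 : Set S := {g | ∃ a b : S, ¬ p ∣ orderOf a ∧ ¬ p ∣ orderOf b ∧
    g = a⁻¹ * b⁻¹ * a * b} with hC0
  have hC0n : ∀ g ∈ C0, ∀ s : S, s * g * s⁻¹ ∈ C0 := by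
    rintro _ ⟨a, b, ha, hb, rfl⟩ s
    refine ⟨s * a * s⁻¹, s * b * s⁻¹, ?_, ?_, by group⟩
    · have : orderOf (s * a * s⁻¹) = orderOf a := by
        have := orderOf_injective (MulAut.conj s).toMonoidHom (MulAut.conj s).injective a
        simpa using this
      rwa [this]
    · have : orderOf (s * b * s⁻¹) = orderOf b := by
        have := orderOf_injective (MulAut.conj s).toMonoidHom (MulAut.conj s).injective b
        simpa using this
      rwa [this]
  have hnormal : ∀ T : Set S, (∀ g ∈ T, ∀ s : S, s * g * s⁻¹ ∈ T) →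
      (Subgroup.closure T).Normal := by
    intro T hT
    constructor
    intro n hn s
    induction hn using Subgroup.closure_induction with
    | mem u hu => exact Subgroup.subset_closure (hT u hu s)
    | one => simpa using (Subgroup.closure T).one_mem
    | mul u v _ _ h1 h2 =>
      have : s * (u * v) * s⁻¹ = (s * u * s⁻¹) * (s * v * s⁻¹) := by group
      rw [this]
      exact (Subgroup.closure T).mul_mem h1 h2
    | inv u _ h1 =>
      have : s * u⁻¹ * s⁻¹ = (s * u * s⁻¹)⁻¹ := by group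
      rw [this]
      exact (Subgroup.closure T).inv_mem h1
  have hCJ : (Subgroup.closure C0).map S.subtype ≤ JJ k P := by
    rw [Subgroup.map_le_iff_le_comap, Subgroup.closure_le]
    rintro _ ⟨a, b, ha, hb, rfl⟩
    have h1 : ¬ p ∣ orderOf (a : G) := by rwa [Subgroup.orderOf_coe]
    have h2 : ¬ p ∣ orderOf (b : G) := by rwa [Subgroup.orderOf_coe]
    exact hkey a a.2 b b.2 h1 h2
  rcases (hnormal C0 hC0n).eq_bot_or_eq_top with hbot | htop
  swap
  · intro s hs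
    apply hCJ
    refine ⟨⟨s, hs⟩, ?_, rfl⟩
    rw [htop]
    exact Subgroup.mem_top _
  exfalso
  -- elements of order prime to p commute
  have hcm : ∀ a b : S, ¬ p ∣ orderOf a → ¬ p ∣ orderOf b → a * b = b * a := by
    intro a b ha hb
    have h1 : a⁻¹ * b⁻¹ * a * b ∈ Subgroup.closure C0 :=
      Subgroup.subset_closure ⟨a, b, ha, hb, rfl⟩
    rw [hbot, Subgroup.mem_bot] at h1
    calc a * b = b * a * (a⁻¹ * b⁻¹ * a * b) := by group
      _ = b * a := by rw [h1, mul_one]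
  set D0 : Set S := {a | ¬ p ∣ orderOf a} with hD0
  have hD0n : ∀ g ∈ D0, ∀ s : S, s * g * s⁻¹ ∈ D0 := by
    intro g hg s
    have : orderOf (s * g * s⁻¹) = orderOf g := by
      have := orderOf_injective (MulAut.conj s).toMonoidHom (MulAut.conj s).injective g
      simpa using this
    change ¬ p ∣ orderOf (s * g * s⁻¹)
    rwa [this]
  have hDc := Subgroup.isMulCommutative_closure (k := D0) (fun a ha b hb => hcm a b ha hb)
  rcases (hnormal D0 hD0n).eq_bot_or_eq_top with hbot' | htop'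
  · -- S is a p-group
    have hSp : IsPGroup p S := by
      intro g
      have hn0 : orderOf g ≠ 0 := (orderOf_pos g).ne'
      obtain ⟨e, m, hpm, hem⟩ := Nat.exists_eq_pow_mul_and_not_dvd hn0 p hp.ne_one
      refine ⟨e, ?_⟩
      have hpe : p ^ e ∣ orderOf g := ⟨m, hem⟩
      have h1 : orderOf (g ^ (p ^ e)) = m := by
        rw [orderOf_pow_of_dvd (pow_ne_zero _ hp.ne_zero) hpe, hem,
          Nat.mul_div_cancel_left _ (pow_pos hp.pos _)]
      have h2 : g ^ (p ^ e) ∈ Subgroup.closure D0 := by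
        apply Subgroup.subset_closure
        change ¬ p ∣ orderOf (g ^ (p ^ e))
        rwa [h1]
      rw [hbot', Subgroup.mem_bot] at h2
      exact h2
    have hnt : Nontrivial S := hS.toNontrivial
    have hc := hSp.center_nontrivial
    rcases (inferInstance : (Subgroup.center S).Normal).eq_bot_or_eq_top with h1 | h1
    · rw [h1] at hc
      exact not_nontrivial _ hc
    · obtain ⟨a, b, hab⟩ := hna
      apply hab
      have h2 : a ∈ Subgroup.center S := by rw [h1]; exact Subgroup.mem_top _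
      exact (Subgroup.mem_center_iff.1 h2 b).symm
  · obtain ⟨a, b, hab⟩ := hna
    apply hab
    have h1 : a ∈ Subgroup.closure D0 := by rw [htop']; exact Subgroup.mem_top _
    have h2 : b ∈ Subgroup.closure D0 := by rw [htop']; exact Subgroup.mem_top _
    have := hDc.is_comm.comm ⟨a, h1⟩ ⟨b, h2⟩
    exact congrArg Subtype.val this

end

end Pool.Agent.Helper54.RT
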