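import Pool.Agent.Helper92.PW.DefsReal

/-!
# Definitions for the reduction theorem (project SJ, second part)
-/

set_option autoImplicit false
open scoped Pointwise
open Pool.Agent.Helper54.PW

namespace Pool.Agent.Helper54.RT

/-- the join of `P` and of all subgroups which have a cover of the affine line with inertia groups at
infinity conjugate to a subgroup of `P` -/
def JJ (k : Type) [Field k] {G : Type} [Group G] (P : Subgroup G) : Subgroup G :=
  P ⊔ sSup {H | ∃ P1 ≤ P, RealAct k (P1.subgroupOf H)}

/-- the automorphism group `Inn(S)⟨α⟩` has a cover of the affine line with inertia groups at infinity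
conjugate to `⟨α⟩` -/
def AA (k : Type) [Field k] {S : Type} [Group S] (α : MulAut S) : Prop :=
  RealAct k ((Subgroup.zpowers α).subgroupOf
    ((MulAut.conj : S →* MulAut S).range ⊔ Subgroup.zpowers α))

/-- the automorphism `α` of the section `B/A` is induced by conjugation with `y` -/
def Ind {G : Type} [Group G] (y : G) (A B : Subgroup G) [(A.subgroupOf B).Normal]
    (α : MulAut (B ⧸ A.subgroupOf B)) : Prop :=
  ∀ (b : G) (hb : b ∈ B), ∃ hb' : y * b * y⁻¹ ∈ B,
    α (QuotientGroup.mk ⟨b, hb⟩) = QuotientGroup.mk ⟨y * b * y⁻¹, hb'⟩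

/-- for every nonabelian composition factor `B/A` of `R` of order divisible by `p` and every
automorphism `α` of `B/A` of order `p` induced by an element of `P`, the group `Inn(B/A)⟨α⟩` has a cover
with inertia group `⟨α⟩` -/
def HypW (p : ℕ) (k : Type) [Field k] {G : Type} [Group G] (P R : Subgroup G) : Prop :=
  ∀ (A B : Subgroup G) [(A.subgroupOf B).Normal], A ≤ B → B ≤ R → B.IsSubnormal →
    IsSimpleGroup (B ⧸ A.subgroupOf B) → (∃ a b : B ⧸ A.subgroupOf B, a * b ≠ b * a) →
    p ∣ Nat.card (B ⧸ A.subgroupOf B) → ∀ y ∈ P, ∀ α : MulAut (B ⧸ A.subgroupOf B),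
      orderOf α = p → Ind y A B α → AA k α

end Pool.Agent.Helper54.RT
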