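import Pool.Agent.Helper54.RT.PPrime

/-!
# RT-08: kernels with a normal Sylow subgroup; the Frattini argument

PROOF.
* `ra_pclosed_kernel`: `Q` is a normal `p`-subgroup of `G`, `Q ≤ K`.  By `ra_pprime_kernel` for `G ⧸ Q` and the normal
  subgroup `K.map (mk' Q)` (its order is `Q.relIndex K`), whose quotient is `G ⧸ K` (third isomorphism theorem), and then
  `ra_solvable_kernel` for `Q` (a `p`-group is solvable).
* `frattini_part`: let `Ph` be a Sylow `p`-subgroup of `G` containing `P`, `Q = Ph ⊓ N`, a Sylow `p`-subgroup of `N`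
  (`N` normal: `p ∤ Q.relIndex N` because `Q.relIndex N` divides `Ph.index`... e.g. `N.relIndex`: `|N Ph| = |N||Ph|/|Q|`).
  `P` normalizes `Q`.  `A = N_G(Q)`; `A ⊔ N = ⊤` by Frattini (`Sylow.normalizer_sup_eq_top'`).  `exists_core` gives `H` with
  `P ≤ H ≤ A`, `H ⊔ N = ⊤`, `H` generated by the conjugates of `P`.  In the group `H` let `K = N.subgroupOf H` and
  `Q' = Q.subgroupOf H`: `Q'` is normal in `H` (`H ≤ N_G(Q)`), it is a `p`-group contained in `K`, and
  `p ∤ Q'.relIndex K`, since `(N ⊓ H) / (Q ⊓ H)` embeds in `N_N(Q) / Q` (or: a Sylow subgroup of `K` is, together with the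
  normal subgroup `Q`, a `p`-subgroup of `N`, so contained in `Q`).  `RealAct` for `H ⧸ K` by `ra_supplement`, so by
  `ra_pclosed_kernel`: `RealAct k (P.subgroupOf H)`, `H ≤ JJ k P`.
-/

set_option autoImplicit false
open scoped Pointwise
open Pool.Agent.Helper54.PW Pool.Agent.Helper54.SJ

namespace Pool.Agent.Helper54.RT

section
variable {p : ℕ} [Fact p.Prime] {k : Type} [Field k] [IsAlgClosed k] [CharP k p] {G : Type}
  [Group G] [Finite G]

theorem ra_pclosed_kernel (K Q : Subgroup G) [K.Normal] [Q.Normal] (hQ : IsPGroup p Q)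
    (hQK : Q ≤ K) (hd : ¬ p ∣ Q.relIndex K)
    {P : Subgroup G} (hP : IsPGroup p P) (hgen : Subgroup.normalClosure (P : Set G) = ⊤)
    (h : RealAct k (P.map (QuotientGroup.mk' K))) : RealAct k P := by
  have hsol : Group.IsSolvable Q := by
    have := hQ.isNilpotent
    exact inferInstance
  apply ra_solvable_kernel Q hsol hP hgen
  have hKn : (K.map (QuotientGroup.mk' Q)).Normal :=
    Subgroup.Normal.map inferInstance _ (QuotientGroup.mk'_surjective Q)
  have hcard : ¬ p ∣ Nat.card (K.map (QuotientGroup.mk' Q)) := by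
    have h1 := Subgroup.relIndex_ker K (QuotientGroup.mk' Q)
    rw [QuotientGroup.ker_mk'] at h1
    rwa [← h1]
  have hgen' : Subgroup.normalClosure ((P.map (QuotientGroup.mk' Q) : Subgroup (G ⧸ Q)) :
      Set (G ⧸ Q)) = ⊤ := by
    rw [Subgroup.coe_map, ← Subgroup.map_normalClosure _ _ (QuotientGroup.mk'_surjective Q), hgen,
      ← MonoidHom.range_eq_map, MonoidHom.range_eq_top]
    exact QuotientGroup.mk'_surjective Q
  apply ra_pprime_kernel (K.map (QuotientGroup.mk' Q)) hcard (hP.map _) hgen'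
  rw [← ra_iso (QuotientGroup.quotientQuotientEquivQuotient Q K hQK)]
  rw [Subgroup.map_map, Subgroup.map_map]
  have h2 : ((QuotientGroup.quotientQuotientEquivQuotient Q K hQK).toMonoidHom.comp
      (QuotientGroup.mk' (K.map (QuotientGroup.mk' Q)))).comp (QuotientGroup.mk' Q) =
      QuotientGroup.mk' K := by
    ext g
    rfl
  rw [h2]
  exact h

omit [Finite G] in
private theorem fr_card {H K : Subgroup G} (h : H ≤ K) :
    Nat.card H * H.relIndex K = Nat.card K := by
  have h1 := Subgroup.relIndex_mul_relIndex (⊥ : Subgroup G) H K bot_le h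
  rwa [Subgroup.relIndex_bot_left, Subgroup.relIndex_bot_left] at h1

/-- the intersection of a Sylow subgroup with a normal subgroup -/
private theorem fr_sylow (N : Subgroup G) [N.Normal] (Ph : Sylow p G) :
    ¬ p ∣ ((Ph : Subgroup G).subgroupOf N).index := by
  have h1 : N.relIndex ((Ph : Subgroup G) ⊔ N) = N.relIndex (Ph : Subgroup G) :=
    Subgroup.relIndex_sup_right _ _
  have h2 : Nat.card N * N.relIndex ((Ph : Subgroup G) ⊔ N) =
      Nat.card ((Ph : Subgroup G) ⊔ N : Subgroup G) :=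
    fr_card (le_sup_right)
  have h3 : Nat.card (Ph : Subgroup G) * (Ph : Subgroup G).relIndex ((Ph : Subgroup G) ⊔ N) =
      Nat.card ((Ph : Subgroup G) ⊔ N : Subgroup G) :=
    fr_card (le_sup_left)
  have h4 : Nat.card ((Ph : Subgroup G) ⊓ N : Subgroup G) *
      ((Ph : Subgroup G) ⊓ N).relIndex N = Nat.card N :=
    fr_card (inf_le_right)
  have h5 : Nat.card ((Ph : Subgroup G) ⊓ N : Subgroup G) *
      ((Ph : Subgroup G) ⊓ N).relIndex (Ph : Subgroup G) = Nat.card (Ph : Subgroup G) :=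
    fr_card (inf_le_left)
  rw [Subgroup.inf_relIndex_right] at h4
  rw [Subgroup.inf_relIndex_left] at h5
  have h6 : (Ph : Subgroup G).relIndex N =
      (Ph : Subgroup G).relIndex ((Ph : Subgroup G) ⊔ N) := by
    have hpos : 0 < Nat.card ((Ph : Subgroup G) ⊓ N : Subgroup G) *
        N.relIndex (Ph : Subgroup G) := by
      rw [h5]
      exact Nat.card_pos
    apply Nat.eq_of_mul_eq_mul_left hpos
    calc Nat.card ((Ph : Subgroup G) ⊓ N : Subgroup G) * N.relIndex (Ph : Subgroup G) *
          (Ph : Subgroup G).relIndex N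
        = (Nat.card ((Ph : Subgroup G) ⊓ N : Subgroup G) * (Ph : Subgroup G).relIndex N) *
          N.relIndex (Ph : Subgroup G) := by ring
      _ = Nat.card ((Ph : Subgroup G) ⊔ N : Subgroup G) := by rw [h4, ← h1, h2]
      _ = _ := by rw [h5, h3]
  intro hdvd
  apply Ph.not_dvd_index
  have h7 : ((Ph : Subgroup G).subgroupOf N).index = (Ph : Subgroup G).relIndex N := rfl
  rw [h7, h6] at hdvd
  refine dvd_trans hdvd ?_
  exact Dvd.intro _ (Subgroup.relIndex_mul_index (le_sup_left))

theorem frattini_part (N : Subgroup G) [N.Normal]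
    {P : Subgroup G} (hP : IsPGroup p P) (hgen : Subgroup.normalClosure (P : Set G) = ⊤)
    (h : RealAct k (P.map (QuotientGroup.mk' N))) : JJ k P ⊔ N = ⊤ := by
  classical
  have hNn : N.Normal := inferInstance
  obtain ⟨Ph, hPh⟩ := hP.exists_le_sylow
  have hpg : IsPGroup p ((Ph : Subgroup G).subgroupOf N) :=
    Ph.isPGroup'.comap_of_injective N.subtype N.subtype_injective
  set QS : Sylow p N := hpg.toSylow (fr_sylow N Ph) with hQS
  have hQScoe : (QS : Subgroup N) = (Ph : Subgroup G).subgroupOf N := rfl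
  set Q : Subgroup G := (Ph : Subgroup G) ⊓ N with hQdef
  have hQmap : (QS : Subgroup N).map N.subtype = Q := by
    rw [hQScoe, Subgroup.subgroupOf_map_subtype]
  have hA : Subgroup.normalizer (Q : Set G) ⊔ N = ⊤ := by
    rw [← hQmap]
    exact Sylow.normalizer_sup_eq_top QS
  have hQp : IsPGroup p Q := Ph.isPGroup'.to_le inf_le_left
  have hPA : P ≤ Subgroup.normalizer (Q : Set G) := by
    intro x hx
    have hxP : x ∈ (Ph : Subgroup G) := hPh hx
    rw [Subgroup.mem_normalizer_iff]
    intro y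
    constructor
    · rintro ⟨h1, h2⟩
      exact ⟨Subgroup.mul_mem _ (Subgroup.mul_mem _ hxP h1) (Subgroup.inv_mem _ hxP),
        hNn.conj_mem _ h2 x⟩
    · rintro ⟨h1, h2⟩
      have h3 : y = x⁻¹ * (x * y * x⁻¹) * x⁻¹⁻¹ := by group
      rw [h3]
      exact ⟨Subgroup.mul_mem _ (Subgroup.mul_mem _ (Subgroup.inv_mem _ hxP) h1)
        (Subgroup.inv_mem _ (Subgroup.inv_mem _ hxP)), hNn.conj_mem _ h2 x⁻¹⟩
  obtain ⟨H, hPH, hHA, hHN, hHgen⟩ := exists_core hPA hgen hA
  -- `p`-subgroups of `N ⊓ H` are contained in `Q`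
  have hmax : ∀ T : Subgroup G, IsPGroup p T → T ≤ N ⊓ H → T ≤ Q := by
    intro T hT hTM
    have h1 : IsPGroup p (T ⊔ Q : Subgroup G) :=
      hT.to_sup_of_normal_right' hQp (le_trans hTM (le_trans inf_le_right hHA))
    have h2 : IsPGroup p ((T ⊔ Q : Subgroup G).subgroupOf N) :=
      h1.comap_of_injective N.subtype N.subtype_injective
    have h3 : (QS : Subgroup N) ≤ (T ⊔ Q : Subgroup G).subgroupOf N := by
      intro x hx
      rw [hQScoe, Subgroup.mem_subgroupOf] at hx
      rw [Subgroup.mem_subgroupOf]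
      exact Subgroup.mem_sup_right ⟨hx, x.2⟩
    have h4 := QS.is_maximal' h2 h3
    intro x hx
    have hxN : x ∈ N := (hTM hx).1
    have h5 : (⟨x, hxN⟩ : N) ∈ (T ⊔ Q : Subgroup G).subgroupOf N := by
      rw [Subgroup.mem_subgroupOf]
      exact Subgroup.mem_sup_left hx
    rw [h4] at h5
    exact ⟨h5, hxN⟩
  have hidx : ¬ p ∣ Q.relIndex (N ⊓ H) := by
    obtain ⟨T⟩ : Nonempty (Sylow p (N ⊓ H : Subgroup G)) := inferInstance
    have h1 : (T : Subgroup (N ⊓ H : Subgroup G)) ≤ Q.subgroupOf (N ⊓ H) := by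
      intro x hx
      rw [Subgroup.mem_subgroupOf]
      apply hmax ((T : Subgroup (N ⊓ H : Subgroup G)).map (N ⊓ H).subtype)
        (T.isPGroup'.map _) (Subgroup.map_subtype_le _)
      exact ⟨x, hx, rfl⟩
    intro h2
    exact T.not_dvd_index (dvd_trans h2 (Subgroup.index_dvd_of_le h1))
  have hQ'n : (Q.subgroupOf H).Normal := by
    refine ⟨fun x hx g => ?_⟩
    rw [Subgroup.mem_subgroupOf] at hx ⊢
    exact (Subgroup.mem_normalizer_iff.1 (hHA g.2) x).1 hx
  have hQ'K : Q.subgroupOf H ≤ N.subgroupOf H := by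
    intro x hx
    rw [Subgroup.mem_subgroupOf] at hx ⊢
    exact hx.2
  have hrel : ¬ p ∣ (Q.subgroupOf H).relIndex (N.subgroupOf H) := by
    have h1 : (Q.subgroupOf H).relIndex ((N ⊓ H).subgroupOf H) = Q.relIndex (N ⊓ H) :=
      Subgroup.relIndex_subgroupOf inf_le_right
    rw [Subgroup.inf_subgroupOf_right] at h1
    rwa [h1]
  have hfin := ra_pclosed_kernel (N.subgroupOf H) (Q.subgroupOf H)
    (hQp.comap_of_injective H.subtype H.subtype_injective) hQ'K hrel
    (hP.comap_of_injective H.subtype H.subtype_injective) hHgen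
    ((ra_supplement hPH hHN).2 h)
  rw [eq_top_iff, ← hHN]
  exact sup_le_sup_right (jj_le (le_refl P) hfin) N

end

end Pool.Agent.Helper54.RT
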