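import Mathlib

/-!
# RT-07: nonabelian minimal normal subgroups

PROOF.  Let `S` be a subgroup of `N` of minimal order among the nontrivial subgroups of `N` which are normalized by `N`
(i.e. a minimal normal subgroup of the group `N`).  For `g : G` the conjugate `gSg⁻¹` has the same properties
(`N` is normal in `G`).  Two of them, `S1` and `S2`, are equal or intersect trivially (`S1 ⊓ S2` is normalized by `N`), and then
they commute elementwise (both are normalized by the other one).  The normal closure of `S` in `G` is a nontrivial normal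
subgroup of `G` contained in `N`, so it is `N`.  `S` is simple: let `T ≤ S` be normalized by `S`.  Then `T` is normalized by
all conjugates of `S` (they are equal to `S` or commute with `S`), so by the group they generate, which is `N`; so
`T = ⊥` or `T = S` by minimality.  `S` is nonabelian: otherwise all conjugates are abelian and they commute with each
other, so `N` is abelian.
-/

set_option autoImplicit false
open scoped Pointwise

namespace Pool.Agent.Helper54.RT

private theorem mn_mem {G : Type} [Group G] (S : Subgroup G) (g x : G) :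
    x ∈ (MulAut.conj g • S : Subgroup G) ↔ g⁻¹ * x * g ∈ S := by
  rw [Subgroup.mem_pointwise_smul_iff_inv_smul_mem, ← map_inv, MulAut.smul_def,
    MulAut.conj_apply, inv_inv]

theorem exists_simple_factor {G : Type} [Group G] [Finite G] (N : Subgroup G) [N.Normal]
    (hmin : ∀ W : Subgroup G, W.Normal → W ≤ N → W = ⊥ ∨ W = N)
    (hna : ∃ a b : N, a * b ≠ b * a) :
    ∃ S : Subgroup G, S ≤ N ∧ (S.subgroupOf N).Normal ∧ IsSimpleGroup S ∧
      (∃ a b : S, a * b ≠ b * a) ∧ Subgroup.normalClosure (S : Set G) = N ∧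
      ∀ g : G, (MulAut.conj g • S : Subgroup G) = S ∨
        ∀ a ∈ S, ∀ b ∈ S, Commute (g * a * g⁻¹) b := by
  classical
  have hNn : N.Normal := inferInstance
  have hNb : N ≠ ⊥ := by
    rintro rfl
    obtain ⟨a, b, hab⟩ := hna
    exact hab (Subsingleton.elim _ _)
  -- minimal subgroup normalized by `N`
  obtain ⟨S, ⟨hSN, hSb, hSn⟩, hSmin⟩ : ∃ S : Subgroup G,
      (S ≤ N ∧ S ≠ ⊥ ∧ ∀ n ∈ N, ∀ t ∈ S, n * t * n⁻¹ ∈ S) ∧
      ∀ T : Subgroup G, T ≤ N → T ≠ ⊥ → (∀ n ∈ N, ∀ t ∈ T, n * t * n⁻¹ ∈ T) → T ≤ S → T = S := by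
    have hfin : {T : Subgroup G | T ≤ N ∧ T ≠ ⊥ ∧ ∀ n ∈ N, ∀ t ∈ T, n * t * n⁻¹ ∈ T}.Finite :=
      Set.toFinite _
    obtain ⟨S, hS⟩ := hfin.exists_minimal
      ⟨N, le_refl _, hNb, fun n hn t ht => N.mul_mem (N.mul_mem hn ht) (N.inv_mem hn)⟩
    refine ⟨S, hS.1, fun T h1 h2 h3 h4 => ?_⟩
    exact le_antisymm h4 (hS.2 ⟨h1, h2, h3⟩ h4)
  have hcard : ∀ g : G, Nat.card (MulAut.conj g • S : Subgroup G) = Nat.card S := fun g =>
    (Nat.card_congr (Subgroup.equivSMul (MulAut.conj g) S).toEquiv).symm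
  have hgN : ∀ g : G, (MulAut.conj g • S : Subgroup G) ≤ N := by
    intro g x hx
    rw [mn_mem] at hx
    have h1 := hNn.conj_mem _ (hSN hx) g
    have h2 : g * (g⁻¹ * x * g) * g⁻¹ = x := by group
    rwa [h2] at h1
  have hgn : ∀ g : G, ∀ n ∈ N, ∀ t ∈ (MulAut.conj g • S : Subgroup G),
      n * t * n⁻¹ ∈ (MulAut.conj g • S : Subgroup G) := by
    intro g n hn t ht
    rw [mn_mem] at ht ⊢
    have h1 : g⁻¹ * n * g ∈ N := by
      have := hNn.conj_mem _ hn g⁻¹
      rwa [inv_inv] at this
    have h2 := hSn _ h1 _ ht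
    have h3 : g⁻¹ * n * g * (g⁻¹ * t * g) * (g⁻¹ * n * g)⁻¹ = g⁻¹ * (n * t * n⁻¹) * g := by group
    rwa [h3] at h2
  have halt : ∀ g : G, (MulAut.conj g • S : Subgroup G) = S ∨
      ∀ a ∈ S, ∀ b ∈ S, Commute (g * a * g⁻¹) b := by
    intro g
    by_cases hI : S ⊓ (MulAut.conj g • S : Subgroup G) = ⊥
    · right
      intro a ha b hb
      have hx : g * a * g⁻¹ ∈ (MulAut.conj g • S : Subgroup G) := by
        rw [mn_mem]
        have h1 : g⁻¹ * (g * a * g⁻¹) * g = a := by group
        rwa [h1]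
      set x := g * a * g⁻¹ with hxdef
      have h1 : x * b * x⁻¹ * b⁻¹ ∈ S :=
        S.mul_mem (hSn x (hgN g hx) b hb) (S.inv_mem hb)
      have h2 : x * b * x⁻¹ * b⁻¹ ∈ (MulAut.conj g • S : Subgroup G) := by
        have h3 := hgn g b (hSN hb) x⁻¹ (Subgroup.inv_mem _ hx)
        have h4 : x * b * x⁻¹ * b⁻¹ = x * (b * x⁻¹ * b⁻¹) := by group
        rw [h4]
        exact Subgroup.mul_mem _ hx h3
      have h3 : x * b * x⁻¹ * b⁻¹ ∈ S ⊓ (MulAut.conj g • S : Subgroup G) := ⟨h1, h2⟩
      rw [hI, Subgroup.mem_bot] at h3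
      have h4 : x * b = b * x := by
        have h5 : x * b = (x * b * x⁻¹ * b⁻¹) * (b * x) := by group
        rw [h5, h3, one_mul]
      exact h4
    · left
      have h1 : S ⊓ (MulAut.conj g • S : Subgroup G) = S := by
        refine hSmin _ (le_trans inf_le_left hSN) hI ?_ inf_le_left
        rintro n hn t ⟨ht1, ht2⟩
        exact ⟨hSn n hn t ht1, hgn g n hn t ht2⟩
      have h2 : S ≤ (MulAut.conj g • S : Subgroup G) := inf_eq_left.1 h1
      exact (Subgroup.eq_of_le_of_card_ge h2 (by rw [hcard g])).symm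
  have hNC : Subgroup.normalClosure (S : Set G) = N := by
    have h1 : Subgroup.normalClosure (S : Set G) ≤ N := Subgroup.normalClosure_le_normal hSN
    rcases hmin _ Subgroup.normalClosure_normal h1 with h2 | h2
    · exfalso
      apply hSb
      rw [eq_bot_iff, ← h2]
      exact Subgroup.subset_normalClosure
    · exact h2
  have hconj : ∀ x ∈ Group.conjugatesOfSet (S : Set G), ∃ g : G, ∃ a ∈ S, g * a * g⁻¹ = x := by
    intro x hx
    rw [Group.mem_conjugatesOfSet_iff] at hx
    obtain ⟨a, ha, hax⟩ := hx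
    rw [isConj_iff] at hax
    obtain ⟨g, hg⟩ := hax
    exact ⟨g, a, ha, hg⟩
  refine ⟨S, hSN, ?_, ?_, ?_, hNC, halt⟩
  · refine ⟨fun n hn g => ?_⟩
    rw [Subgroup.mem_subgroupOf] at hn ⊢
    exact hSn g g.2 n hn
  · have hnt : Nontrivial S := (Subgroup.nontrivial_iff_ne_bot S).2 hSb
    refine ⟨fun H hH => ?_⟩
    by_cases hb : H = ⊥
    · exact Or.inl hb
    right
    have hTle : H.map S.subtype ≤ S := Subgroup.map_subtype_le H
    have hTn : N ≤ Subgroup.normalizer ((H.map S.subtype : Subgroup G) : Set G) := by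
      rw [← hNC]
      change Subgroup.closure (Group.conjugatesOfSet (S : Set G)) ≤ _
      rw [Subgroup.closure_le]
      intro x hx
      obtain ⟨g, a, ha, rfl⟩ := hconj x hx
      have hkey : ∀ y : G, y ∈ (MulAut.conj g • S : Subgroup G) →
          ∀ t ∈ H.map S.subtype, y * t * y⁻¹ ∈ H.map S.subtype := by
        intro y hy t ht
        rcases halt g with h1 | h1
        · rw [h1] at hy
          obtain ⟨u, hu, rfl⟩ := ht
          exact ⟨_, hH.conj_mem u hu ⟨y, hy⟩, rfl⟩
        · rw [mn_mem] at hy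
          have h2 := h1 _ hy t (hTle ht)
          have h3 : g * (g⁻¹ * y * g) * g⁻¹ = y := by group
          rw [h3] at h2
          rw [h2.eq, mul_inv_cancel_right]
          exact ht
      have hx2 : g * a * g⁻¹ ∈ (MulAut.conj g • S : Subgroup G) := by
        rw [mn_mem]
        have h1 : g⁻¹ * (g * a * g⁻¹) * g = a := by group
        rwa [h1]
      rw [SetLike.mem_coe, Subgroup.mem_normalizer_iff]
      intro t
      constructor
      · intro ht
        exact hkey _ hx2 t ht
      · intro ht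
        have h4 := hkey _ (Subgroup.inv_mem _ hx2) _ ht
        have h5 : (g * a * g⁻¹)⁻¹ * (g * a * g⁻¹ * t * (g * a * g⁻¹)⁻¹) * (g * a * g⁻¹)⁻¹⁻¹ = t := by
          group
        rwa [h5] at h4
    have hTS : H.map S.subtype = S := by
      refine hSmin _ (le_trans hTle hSN) ?_ ?_ hTle
      · intro h1
        apply hb
        rw [Subgroup.map_eq_bot_iff] at h1
        rw [eq_bot_iff]
        intro x hx
        have h2 := h1 hx
        rw [MonoidHom.mem_ker] at h2
        rw [Subgroup.mem_bot]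
        exact Subtype.ext h2
      · intro n hn t ht
        exact (Subgroup.mem_normalizer_iff.1 (hTn hn) t).1 ht
    rw [eq_top_iff]
    intro x _
    have h1 : (x : G) ∈ H.map S.subtype := by
      rw [hTS]
      exact x.2
    obtain ⟨u, hu, hux⟩ := h1
    have h2 : u = x := Subtype.ext hux
    rwa [← h2]
  · by_contra hcon
    push Not at hcon
    have hab : ∀ a ∈ S, ∀ b ∈ S, a * b = b * a := by
      intro a ha b hb
      exact congrArg Subtype.val (hcon ⟨a, ha⟩ ⟨b, hb⟩)
    have hC : ∀ x ∈ Group.conjugatesOfSet (S : Set G), ∀ y ∈ Group.conjugatesOfSet (S : Set G),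
        x * y = y * x := by
      intro x hx y hy
      obtain ⟨g, a, ha, rfl⟩ := hconj x hx
      obtain ⟨h, b, hb, rfl⟩ := hconj y hy
      have h1 : (h⁻¹ * g) * a * (h⁻¹ * g)⁻¹ * b = b * ((h⁻¹ * g) * a * (h⁻¹ * g)⁻¹) := by
        rcases halt (h⁻¹ * g) with h2 | h2
        · apply hab _ _ _ hb
          rw [← h2, mn_mem]
          have h3 : (h⁻¹ * g)⁻¹ * ((h⁻¹ * g) * a * (h⁻¹ * g)⁻¹) * (h⁻¹ * g) = a := by group
          rwa [h3]
        · exact h2 a ha b hb
      have h2 : g * a * g⁻¹ * (h * b * h⁻¹) =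
          h * ((h⁻¹ * g) * a * (h⁻¹ * g)⁻¹ * b) * h⁻¹ := by group
      have h3 : h * b * h⁻¹ * (g * a * g⁻¹) =
          h * (b * ((h⁻¹ * g) * a * (h⁻¹ * g)⁻¹)) * h⁻¹ := by group
      rw [h2, h3, h1]
    have h1 : N ≤ Subgroup.centralizer (Group.conjugatesOfSet (S : Set G)) := by
      rw [← hNC]
      change Subgroup.closure (Group.conjugatesOfSet (S : Set G)) ≤ _
      rw [Subgroup.closure_le]
      intro x hx
      rw [SetLike.mem_coe, Subgroup.mem_centralizer_iff]
      intro y hy
      exact hC y hy x hx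
    have h2 : N ≤ Subgroup.centralizer (N : Set G) := by
      have h3 : Subgroup.closure (Group.conjugatesOfSet (S : Set G)) ≤
          Subgroup.centralizer (N : Set G) := by
        rw [Subgroup.closure_le]
        intro x hx
        rw [SetLike.mem_coe, Subgroup.mem_centralizer_iff]
        intro y hy
        exact (Subgroup.mem_centralizer_iff.1 (h1 hy) x hx).symm
      have h4 : Subgroup.closure (Group.conjugatesOfSet (S : Set G)) = N := hNC
      rwa [h4] at h3
    obtain ⟨a, b, hne⟩ := hna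
    apply hne
    apply Subtype.ext
    exact Subgroup.mem_centralizer_iff.1 (h2 b.2) a a.2

end Pool.Agent.Helper54.RT
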