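import Pool.Agent.Helper54.RT.Frat
import Pool.Agent.Helper54.RT.CaseA
import Pool.Agent.Helper54.RT.CaseB
import Pool.Agent.Helper54.RT.MinNormal

/-!
# RT-09: the reduction step for a nonabelian minimal normal subgroup

PROOF.  Let `S` be given by `exists_simple_factor`.  By `frattini_part`, `JJ k P ⊔ N = ⊤`; `M = JJ k P`.
(1) It is enough to find `g` with `gSg⁻¹ ≤ M` (`g : G`).  Let `S' = gSg⁻¹`; its normal closure is also `N`.  Every element of `G`
is `m n` with `m ∈ M`, `n ∈ N` (`N` normal), and `n` normalizes `S'` (`S` is normal in `N`), so every conjugate of `S'` is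
contained in `M`; so `N ≤ M`, so `M = ⊤` and `jj_top` applies.
Note that `gSg⁻¹` has all the properties of `S` (simple, nonabelian, normal in `N`, ...).
(2) Suppose that for some `g` the subgroup `S' = gSg⁻¹` is normalized but not centralized by some `y ∈ P`.
`exists_pow_caseA` gives `y' ∈ P`.  Apply `caseA` to `S'` and `y'`; `hW` there follows from `hyp` with `A = ⊥`, `B = S'`:
`S'` is subnormal in `G` (normal in `N`), contained in `R`, `S' ⧸ (⊥.subgroupOf S') ≃* S'`
(`QuotientGroup.quotientBot` and `Subgroup.bot_subgroupOf`/`quotientEquivOfEq`), its order is divisible by `p` (`hpN`: `N` is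
the product of the conjugates of `S`, so a prime dividing `|N|` divides `|S|`; this is `hpS`, see (4)), and `AA`, `Ind` are
transported by `ra_aut`.  So `S' ≤ M`.
(3) Otherwise, every element of `P` which normalizes some conjugate of `S` centralizes it.  Not all conjugates of `S` are
normalized by `P`: otherwise `P` centralizes all of them, so centralizes `N`, and so does the normal closure `⊤` of `P` (the
centralizer of `N` is normal), and `N` is abelian, a contradiction.  So there are `g` and `x0 ∈ P` such that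
`x0` does not normalize `S' = gSg⁻¹`.  The set of `n : ℕ` such that `x0^n` normalizes `S'` consists of the multiples of a
power `p^j`, `j ≥ 1` (`x0` has `p`-power order; stabilizer of `S'` in the cyclic group `zpowers x0`).  Let
`x = x0^(p^(j-1))`: `x^i` normalizes `S'` iff `p ∣ i`.  `x^p` normalizes `S'`, so it centralizes it.  For
`i ≠ j < p`, `x^i S' x⁻^i ≠ x^j S' x⁻^j`, so they commute elementwise (last property of `S`, conjugated).  `caseB` gives
`S' ≤ M`.
(4) `hpS`: if `p ∤ |S|`: all conjugates of `S` have order prime to `p` and commute or are equal, so `N` (generated by them) has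
order prime to `p` (the order of a product of commuting subgroups divides the product of the orders), contradiction to
`hpN`.
-/

set_option autoImplicit false
open scoped Pointwise
open Pool.Agent.Helper54.PW Pool.Agent.Helper54.SJ

namespace Pool.Agent.Helper54.RT

section stepaux
variable {G : Type} [Group G]

theorem step_mem_conj {g x : G} {S : Subgroup G} :
    x ∈ (MulAut.conj g • S : Subgroup G) ↔ g⁻¹ * x * g ∈ S := by
  rw [Subgroup.mem_pointwise_smul_iff_inv_smul_mem, ← map_inv, MulAut.smul_def, MulAut.conj_apply,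
    inv_inv]

theorem step_conj_eq {g : G} {S : Subgroup G} :
    (MulAut.conj g • S : Subgroup G) = S ↔ g ∈ Subgroup.normalizer (S : Set G) := by
  rw [Subgroup.mem_normalizer_iff]
  constructor
  · intro h x
    have h1 : g * x * g⁻¹ ∈ (MulAut.conj g • S : Subgroup G) ↔ x ∈ S := by
      rw [step_mem_conj]
      have : g⁻¹ * (g * x * g⁻¹) * g = x := by group
      rw [this]
    rw [h] at h1
    exact h1.symm
  · intro h
    ext x
    rw [step_mem_conj]
    have h1 := h (g⁻¹ * x * g)
    have h2 : g * (g⁻¹ * x * g) * g⁻¹ = x := by group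
    rw [h2] at h1
    exact h1

/-- the properties of the simple factors of a minimal normal subgroup -/
structure StepSF (N S : Subgroup G) : Prop where
  le : S ≤ N
  norm : ∀ n ∈ N, n ∈ Subgroup.normalizer (S : Set G)
  simple : IsSimpleGroup S
  nab : ∃ a b : S, a * b ≠ b * a
  ncl : Subgroup.normalClosure (S : Set G) = N
  com : ∀ g : G, g ∈ Subgroup.normalizer (S : Set G) ∨
    ∀ a ∈ S, ∀ b ∈ S, Commute (g * a * g⁻¹) b

theorem StepSF.conj {N S : Subgroup G} [N.Normal] (h : StepSF N S) (g : G) :
    StepSF N (MulAut.conj g • S : Subgroup G) := by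
  have hN : N.Normal := inferInstance
  have hle : (MulAut.conj g • S : Subgroup G) ≤ N := by
    intro x hx
    rw [step_mem_conj] at hx
    have h1 := hN.conj_mem _ (h.le hx) g
    have h2 : g * (g⁻¹ * x * g) * g⁻¹ = x := by group
    rwa [h2] at h1
  have hconj : ∀ t : G, g⁻¹ * t * g ∈ Subgroup.normalizer (S : Set G) →
      t ∈ Subgroup.normalizer ((MulAut.conj g • S : Subgroup G) : Set G) := by
    intro t ht
    rw [← step_conj_eq] at ht ⊢
    rw [smul_smul, ← map_mul]
    have h1 : t * g = g * (g⁻¹ * t * g) := by group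
    rw [h1, map_mul, mul_smul, ht]
  let e : S ≃* (MulAut.conj g • S : Subgroup G) := Subgroup.equivSMul (MulAut.conj g) S
  refine ⟨hle, ?_, ?_, ?_, ?_, ?_⟩
  · intro n hn
    apply hconj
    apply h.norm
    have h1 := hN.conj_mem _ hn g⁻¹
    rwa [inv_inv] at h1
  · have := h.simple
    exact e.symm.isSimpleGroup
  · obtain ⟨a, b, hab⟩ := h.nab
    refine ⟨e a, e b, fun h1 => hab ?_⟩
    rw [← map_mul, ← map_mul] at h1
    exact e.injective h1
  · apply le_antisymm
    · exact Subgroup.normalClosure_le_normal hle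
    · rw [← h.ncl]
      refine Subgroup.normalClosure_le_normal ?_
      intro s hs
      have h1 : g * s * g⁻¹ ∈ Subgroup.normalClosure
          (((MulAut.conj g • S : Subgroup G) : Subgroup G) : Set G) := by
        apply Subgroup.subset_normalClosure
        change g * s * g⁻¹ ∈ (MulAut.conj g • S : Subgroup G)
        rw [step_mem_conj]
        have : g⁻¹ * (g * s * g⁻¹) * g = s := by group
        rw [this]
        exact hs
      have h2 := Subgroup.normalClosure_normal.conj_mem _ h1 g⁻¹
      have h3 : g⁻¹ * (g * s * g⁻¹) * g⁻¹⁻¹ = s := by group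
      rwa [h3] at h2
  · intro t
    rcases h.com (g⁻¹ * t * g) with h1 | h1
    · exact Or.inl (hconj t h1)
    · right
      intro a ha b hb
      rw [step_mem_conj] at ha hb
      have h2 := h1 _ ha _ hb
      have h3 := h2.eq
      change t * a * t⁻¹ * b = b * (t * a * t⁻¹)
      have h4 := congrArg (fun z => g * z * g⁻¹) h3
      beta_reduce at h4
      have e1 : g * (g⁻¹ * t * g * (g⁻¹ * a * g) * (g⁻¹ * t * g)⁻¹ * (g⁻¹ * b * g)) * g⁻¹ =
          t * a * t⁻¹ * b := by group
      have e2 : g * (g⁻¹ * b * g * (g⁻¹ * t * g * (g⁻¹ * a * g) * (g⁻¹ * t * g)⁻¹)) * g⁻¹ =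
          b * (t * a * t⁻¹) := by group
      rwa [e1, e2] at h4

theorem StepSF.eq_top {N S M : Subgroup G} [N.Normal] (h : StepSF N S) (hM : M ⊔ N = ⊤) {g : G}
    (hg : (MulAut.conj g • S : Subgroup G) ≤ M) : M = ⊤ := by
  have hS' := h.conj g
  have hall : ∀ t : G, ∀ s ∈ S, t * s * t⁻¹ ∈ M := by
    intro t s hs
    have h1 : t * g⁻¹ ∈ (M ⊔ N : Subgroup G) := by rw [hM]; exact Subgroup.mem_top _
    rw [← SetLike.mem_coe, Subgroup.mul_normal] at h1
    obtain ⟨m, hm, n, hn, hmn⟩ := h1
    have hmn' : m * n = t * g⁻¹ := hmn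
    have h2 : g * s * g⁻¹ ∈ (MulAut.conj g • S : Subgroup G) := by
      rw [step_mem_conj]
      have : g⁻¹ * (g * s * g⁻¹) * g = s := by group
      rwa [this]
    have h3 := (Subgroup.mem_normalizer_iff.1 (hS'.norm n hn) (g * s * g⁻¹)).1 h2
    have h4 := M.mul_mem (M.mul_mem hm (hg h3)) (M.inv_mem hm)
    have h5 : m * (n * (g * s * g⁻¹) * n⁻¹) * m⁻¹ = t * s * t⁻¹ := by
      have e1 : t = m * n * g := by rw [hmn']; group
      rw [e1]
      group
    rwa [h5] at h4
  have hNM : N ≤ M := by
    rw [← h.ncl, Subgroup.normalClosure, Subgroup.closure_le]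
    intro x hx
    obtain ⟨s, hs, hc⟩ := Group.mem_conjugatesOfSet_iff.1 hx
    obtain ⟨c, rfl⟩ := isConj_iff.1 hc
    exact hall c s hs
  rw [← hM]
  exact (sup_eq_left.2 hNM).symm

theorem StepSF.dvd [Finite G] {p : ℕ} [hp : Fact p.Prime] {N S : Subgroup G} [N.Normal]
    (h : StepSF N S) (hpN : p ∣ Nat.card N) : p ∣ Nat.card S := by
  classical
  by_contra hS
  let T : G → Subgroup N := fun g => (MulAut.conj g • S : Subgroup G).subgroupOf N
  have hTn : ∀ g, (T g).Normal := by
    intro g
    refine ⟨fun x hx n => ?_⟩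
    have h1 := (h.conj g).norm n n.2
    rw [Subgroup.mem_normalizer_iff] at h1
    exact (h1 x).1 hx
  have hTc : ∀ g, Nat.card (T g) = Nat.card S := by
    intro g
    have e1 : (T g) ≃* (MulAut.conj g • S : Subgroup G) :=
      Subgroup.subgroupOfEquivOfLe (h.conj g).le
    have e2 : S ≃* (MulAut.conj g • S : Subgroup G) := Subgroup.equivSMul (MulAut.conj g) S
    exact (Nat.card_congr (e1.trans e2.symm).toEquiv)
  have key : ∀ F : Finset G, ¬ p ∣ Nat.card ((F.sup T : Subgroup N)) ∧
      ((F.sup T : Subgroup N)).Normal := by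
    intro F
    induction F using Finset.induction_on with
    | empty =>
      rw [Finset.sup_empty]
      refine ⟨?_, inferInstance⟩
      rw [Subgroup.card_bot]
      exact hp.out.not_dvd_one
    | insert g F hg ih =>
      obtain ⟨ih1, ih2⟩ := ih
      rw [Finset.sup_insert]
      have hn := hTn g
      refine ⟨?_, inferInstance⟩
      have h1 := Subgroup.card_mul_index ((F.sup T).subgroupOf (T g ⊔ F.sup T))
      have h2 : Nat.card ((F.sup T).subgroupOf (T g ⊔ F.sup T)) = Nat.card (F.sup T : Subgroup N) :=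
        Nat.card_congr (Subgroup.subgroupOfEquivOfLe le_sup_right).toEquiv
      have h3 : ((F.sup T).subgroupOf (T g ⊔ F.sup T)).index = (F.sup T).relIndex (T g) := by
        change (F.sup T).relIndex (T g ⊔ F.sup T) = _
        exact Subgroup.relIndex_sup_right _ _
      rw [h2, h3] at h1
      rw [← h1, hp.out.dvd_mul]
      push Not
      refine ⟨ih1, fun h4 => hS ?_⟩
      rw [← hTc g]
      exact h4.trans (Subgroup.relIndex_dvd_card _ _)
  have := Fintype.ofFinite G
  have htop : ((Finset.univ : Finset G).sup T : Subgroup N) = ⊤ := by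
    rw [eq_top_iff]
    have h1 : N ≤ ((Finset.univ : Finset G).sup T : Subgroup N).map N.subtype := by
      conv_lhs => rw [← h.ncl]
      rw [Subgroup.normalClosure, Subgroup.closure_le]
      intro x hx
      obtain ⟨s, hs, hc⟩ := Group.mem_conjugatesOfSet_iff.1 hx
      obtain ⟨c, rfl⟩ := isConj_iff.1 hc
      have h2 : c * s * c⁻¹ ∈ (MulAut.conj c • S : Subgroup G) := by
        rw [step_mem_conj]
        have : c⁻¹ * (c * s * c⁻¹) * c = s := by group
        rwa [this]
      have h3 : (⟨c * s * c⁻¹, (h.conj c).le h2⟩ : N) ∈ T c := h2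
      have h4 : T c ≤ ((Finset.univ : Finset G).sup T : Subgroup N) :=
        Finset.le_sup (Finset.mem_univ c)
      exact ⟨_, h4 h3, rfl⟩
    intro n _
    obtain ⟨m, hm, hmn⟩ := h1 n.2
    have : m = n := Subtype.ext hmn
    rwa [← this]
  have h5 := (key Finset.univ).1
  rw [htop, Subgroup.card_top] at h5
  exact h5 hpN

theorem step_exists_x {p : ℕ} [hp : Fact p.Prime] {P S : Subgroup G} (hP : IsPGroup p P)
    (h : ¬ ∀ y ∈ P, y ∈ Subgroup.normalizer (S : Set G)) :
    ∃ x ∈ P, x ^ p ∈ Subgroup.normalizer (S : Set G) ∧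
      ∀ i : ℕ, 0 < i → i < p → x ^ i ∉ Subgroup.normalizer (S : Set G) := by
  classical
  push Not at h
  obtain ⟨x0, hx0, hn0⟩ := h
  have hex : ∃ j : ℕ, x0 ^ p ^ j ∈ Subgroup.normalizer (S : Set G) := by
    obtain ⟨a, ha⟩ := hP ⟨x0, hx0⟩
    refine ⟨a, ?_⟩
    have h1 : x0 ^ p ^ a = 1 := by
      have := congrArg Subtype.val ha
      simpa using this
    rw [h1]
    exact one_mem _
  obtain ⟨j, hj⟩ : ∃ j, Nat.find hex = j + 1 := by
    have h1 : Nat.find hex ≠ 0 := by
      intro h0
      have h2 := Nat.find_spec hex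
      rw [h0, pow_zero, pow_one] at h2
      exact hn0 h2
    exact ⟨Nat.find hex - 1, by omega⟩
  refine ⟨x0 ^ p ^ j, P.pow_mem hx0 _, ?_, ?_⟩
  · rw [← pow_mul, ← pow_succ, ← hj]
    exact Nat.find_spec hex
  · intro i hi0 hip hmem
    have h1 : x0 ^ p ^ j ∉ Subgroup.normalizer (S : Set G) := Nat.find_min hex (by omega)
    apply h1
    have h2 : (x0 ^ p ^ j) ^ p ∈ Subgroup.normalizer (S : Set G) := by
      rw [← pow_mul, ← pow_succ, ← hj]
      exact Nat.find_spec hex
    have hco : Nat.Coprime i p := by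
      rw [Nat.coprime_comm, hp.out.coprime_iff_not_dvd]
      exact fun hd => absurd (Nat.le_of_dvd hi0 hd) (by omega)
    have h3 := Nat.gcd_eq_gcd_ab i p
    rw [hco.gcd_eq_one] at h3
    have h4 : x0 ^ p ^ j = ((x0 ^ p ^ j) ^ i) ^ (Nat.gcdA i p) * ((x0 ^ p ^ j) ^ p) ^ (Nat.gcdB i p) := by
      rw [← zpow_natCast (x0 ^ p ^ j) i, ← zpow_natCast (x0 ^ p ^ j) p, ← zpow_mul, ← zpow_mul,
        ← zpow_add, ← h3]
      simp
    rw [h4]
    exact mul_mem (zpow_mem hmem _) (zpow_mem h2 _)

end stepaux

theorem step_hW {p : ℕ} [Fact p.Prime] {k : Type} [Field k] {G : Type} [Group G]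
    {N R P S : Subgroup G} [N.Normal] (hNR : N ≤ R) (h : StepSF N S) (hyp : HypW p k P R)
    (hpS : p ∣ Nat.card S) {y : G} (hy : y ∈ P) (α : MulAut S) (hα : orderOf α = p)
    (hαy : ∀ s : S, ((α s : S) : G) = y * s * y⁻¹) : AA k α := by
  have hnor : ((⊥ : Subgroup G).subgroupOf S).Normal := by
    rw [Subgroup.bot_subgroupOf]
    infer_instance
  let e : S ⧸ ((⊥ : Subgroup G).subgroupOf S) ≃* S :=
    (QuotientGroup.quotientMulEquivOfEq (Subgroup.bot_subgroupOf S)).trans
      QuotientGroup.quotientBot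
  have he : ∀ s : S, e (QuotientGroup.mk s) = s := fun s => rfl
  have hsimp := h.simple
  have hsub : S.IsSubnormal := by
    refine Subgroup.IsSubnormal.trans h.le (Subgroup.Normal.isSubnormal ?_)
      (Subgroup.Normal.isSubnormal inferInstance)
    refine ⟨fun x hx n => ?_⟩
    have h1 := h.norm n n.2
    rw [Subgroup.mem_normalizer_iff] at h1
    exact (h1 x).1 hx
  refine (ra_aut e (MulAut.congr e.symm α) α (fun q => ?_)).1
    (hyp ⊥ S bot_le (h.le.trans hNR) hsub e.isSimpleGroup ?_ ?_ y hy (MulAut.congr e.symm α) ?_ ?_)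
  · change e (e.symm (α (e.symm.symm q))) = α (e q)
    rw [MulEquiv.apply_symm_apply, MulEquiv.symm_symm]
  · obtain ⟨a, b, hab⟩ := h.nab
    refine ⟨e.symm a, e.symm b, fun h1 => hab ?_⟩
    rw [← map_mul, ← map_mul] at h1
    exact e.symm.injective h1
  · rw [Nat.card_congr e.toEquiv]
    exact hpS
  · rw [MulEquiv.orderOf_eq]
    exact hα
  · intro b hb
    have h1 := hαy ⟨b, hb⟩
    have hb' : y * b * y⁻¹ ∈ S := by
      rw [← h1]
      exact (α ⟨b, hb⟩).2
    refine ⟨hb', ?_⟩
    change e.symm (α (e.symm.symm (QuotientGroup.mk ⟨b, hb⟩))) = _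
    rw [MulEquiv.symm_symm, he, MulEquiv.symm_apply_eq, he]
    exact Subtype.ext h1

theorem step_nonabelian {p : ℕ} [Fact p.Prime] (hp3 : 3 ≤ p) {k : Type} [Field k] [IsAlgClosed k]
    [CharP k p] {G : Type} [Group G] [Finite G] (N R : Subgroup G) [N.Normal] (hNR : N ≤ R)
    (hmin : ∀ W : Subgroup G, W.Normal → W ≤ N → W = ⊥ ∨ W = N)
    (hna : ∃ a b : N, a * b ≠ b * a) (hpN : p ∣ Nat.card N)
    {P : Subgroup G} (hP : IsPGroup p P) (hgen : Subgroup.normalClosure (P : Set G) = ⊤)
    (hyp : HypW p k P R)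
    (h : RealAct k (P.map (QuotientGroup.mk' N))) : RealAct k P := by
  classical
  obtain ⟨S, hSN, hSn, hSs, hSna, hScl, hScom⟩ := exists_simple_factor N hmin hna
  have hSF : StepSF N S := by
    refine ⟨hSN, ?_, hSs, hSna, hScl, ?_⟩
    · intro n hn
      have h1 : ∀ g ∈ N, ∀ x ∈ S, g * x * g⁻¹ ∈ S := by
        intro g hg x hx
        exact hSn.conj_mem ⟨x, hSN hx⟩ hx ⟨g, hg⟩
      rw [Subgroup.mem_normalizer_iff]
      intro x
      refine ⟨h1 n hn x, fun hx => ?_⟩
      have h2 := h1 n⁻¹ (inv_mem hn) _ hx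
      have h3 : n⁻¹ * (n * x * n⁻¹) * n⁻¹⁻¹ = x := by group
      rwa [h3] at h2
    · intro g
      rcases hScom g with h1 | h1
      · exact Or.inl (step_conj_eq.1 h1)
      · exact Or.inr h1
  have hM := frattini_part (k := k) N hP hgen h
  apply jj_top hP
  -- an element normalizing but not centralizing a conjugate
  by_cases hA : ∃ g : G, ∃ y ∈ P, y ∈ Subgroup.normalizer
      ((MulAut.conj g • S : Subgroup G) : Set G) ∧
      ∃ s ∈ (MulAut.conj g • S : Subgroup G), y * s * y⁻¹ ≠ s
  · obtain ⟨g, y, hy, hyS, hnc⟩ := hA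
    have hS' := hSF.conj g
    obtain ⟨y', hy', hyS', hnc', hyp'⟩ := exists_pow_caseA (P := P)
      (S := (MulAut.conj g • S : Subgroup G)) hP y hy hyS hnc
    refine hSF.eq_top hM (g := g) (caseA hP hS'.simple hS'.nab y' hy' hyS' hnc' hyp' ?_)
    intro α hα hαy
    exact step_hW hNR hS' hyp (hS'.dvd hpN) hy' α hα hαy
  · push Not at hA
    -- some conjugate is not normalized by `P`
    by_cases hB : ∀ g : G, ∀ y ∈ P, y ∈ Subgroup.normalizer
        ((MulAut.conj g • S : Subgroup G) : Set G)
    · exfalso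
      have hcen : Subgroup.normalClosure (P : Set G) ≤
          Subgroup.centralizer ((N : Subgroup G) : Set G) := by
        refine Subgroup.normalClosure_le_normal ?_
        intro y hy
        rw [SetLike.mem_coe, Subgroup.mem_centralizer_iff]
        have hNle : N ≤ Subgroup.centralizer ({y} : Set G) := by
          rw [← hScl, Subgroup.normalClosure, Subgroup.closure_le]
          intro x hx
          obtain ⟨s, hs, hc⟩ := Group.mem_conjugatesOfSet_iff.1 hx
          obtain ⟨c, rfl⟩ := isConj_iff.1 hc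
          have h2 : c * s * c⁻¹ ∈ (MulAut.conj c • S : Subgroup G) := by
            rw [step_mem_conj]
            have : c⁻¹ * (c * s * c⁻¹) * c = s := by group
            rwa [this]
          have h3 := hA c y hy (hB c y hy) _ h2
          rw [SetLike.mem_coe, Subgroup.mem_centralizer_iff]
          intro z hz
          rw [Set.mem_singleton_iff] at hz
          rw [hz]
          rw [mul_inv_eq_iff_eq_mul] at h3
          exact h3
        intro n hn
        have h4 := hNle hn
        rw [Subgroup.mem_centralizer_iff] at h4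
        exact (h4 y rfl).symm
      rw [hgen] at hcen
      obtain ⟨a, b, hab⟩ := hna
      apply hab
      have h5 := hcen (Subgroup.mem_top (b : G))
      rw [Subgroup.mem_centralizer_iff] at h5
      exact Subtype.ext (h5 a a.2)
    · push Not at hB
      obtain ⟨g, y, hy, hyn⟩ := hB
      have hS' := hSF.conj g
      obtain ⟨x, hx, hxp, hxi⟩ := step_exists_x (S := (MulAut.conj g • S : Subgroup G)) hP
        (fun hall => hyn (hall y hy))
      refine hSF.eq_top hM (g := g) (caseB hp3 hP hS'.simple hS'.nab x hx ?_ ?_)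
      · have hno : ∀ i < p, ∀ j < p, i ≠ j → (x ^ j)⁻¹ * x ^ i ∉
            Subgroup.normalizer ((MulAut.conj g • S : Subgroup G) : Set G) := by
          intro i hi j hj hij hmem
          rcases lt_or_gt_of_ne hij with h1 | h1
          · have h2 := inv_mem hmem
            have h3 : ((x ^ j)⁻¹ * x ^ i)⁻¹ = x ^ (j - i) := by
              rw [mul_inv_rev, inv_inv, pow_sub x h1.le]
              rw [← zpow_natCast, ← zpow_natCast, ← zpow_neg, ← zpow_add, ← zpow_add, add_comm]
            rw [h3] at h2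
            exact hxi (j - i) (by omega) (by omega) h2
          · have h3 : (x ^ j)⁻¹ * x ^ i = x ^ (i - j) := by
              rw [pow_sub x h1.le]
              rw [← zpow_natCast, ← zpow_natCast, ← zpow_neg, ← zpow_add, ← zpow_add, add_comm]
            rw [h3] at hmem
            exact hxi (i - j) (by omega) (by omega) hmem
        intro i hi j hj hij a ha b hb
        rcases hS'.com ((x ^ j)⁻¹ * x ^ i) with h1 | h1
        · exact absurd h1 (hno i hi j hj hij)
        · have h2 := (h1 a ha b hb).eq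
          have h4 := congrArg (fun z => x ^ j * z * (x ^ j)⁻¹) h2
          beta_reduce at h4
          have e1 : x ^ j * ((x ^ j)⁻¹ * x ^ i * a * ((x ^ j)⁻¹ * x ^ i)⁻¹ * b) * (x ^ j)⁻¹ =
              (x ^ i * a * (x ^ i)⁻¹) * (x ^ j * b * (x ^ j)⁻¹) := by group
          have e2 : x ^ j * (b * ((x ^ j)⁻¹ * x ^ i * a * ((x ^ j)⁻¹ * x ^ i)⁻¹)) * (x ^ j)⁻¹ =
              (x ^ j * b * (x ^ j)⁻¹) * (x ^ i * a * (x ^ i)⁻¹) := by group
          rw [e1, e2] at h4
          exact h4
      · intro a ha
        exact hA g (x ^ p) (P.pow_mem hx p) hxp a ha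

end Pool.Agent.Helper54.RT
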